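import Pool.Agent.Lib.MP_afdd4d_co.MC.Sem

/-!
# Giraud's 4-graphs and sets on which a 4-graph looks like one of them
-/

namespace Pool.Agent.Lib.MP_afdd4d_co.MC

open Finset K8

section gir
variable {n : ℕ}

/-- Giraud's 4-graph of a colouring and of a relation between vertices. -/
def Gir (χ : Fin n → Bool) (M : Fin n → Fin n → Bool) : Finset (Finset (Fin n)) :=
  (univ.powersetCard 4).filter fun e => Odd (e.filter fun x => χ x = true).card ∨
    ((e.filter fun x => χ x = true).card = 2 ∧
      Odd ((e ×ˢ e).filter fun p => χ p.1 = true ∧ χ p.2 = false ∧ M p.1 p.2 = true).card)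

/-- The relation given by a 4-graph and two vertices. -/
def Mab (H : Finset (Finset (Fin n))) (a b : Fin n) (x y : Fin n) : Bool :=
  decide (({a, x, b, y} : Finset (Fin n)) ∈ H)

variable (H : Finset (Finset (Fin n))) (χ : Fin n → Bool)

theorem even_five (S : Finset (Fin n)) (hS : GSet H χ S) (a b c d e : Fin n)
    (hab : a ≠ b) (hac : a ≠ c) (had : a ≠ d) (hae : a ≠ e) (hbc : b ≠ c) (hbd : b ≠ d)
    (hbe : b ≠ e) (hcd : c ≠ d) (hce : c ≠ e) (hde : d ≠ e)
    (ha : a ∈ S) (hb : b ∈ S) (hc : c ∈ S) (hd : d ∈ S) (he : e ∈ S) :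
    Even ((if ({b, c, d, e} : Finset (Fin n)) ∈ H then 1 else 0) +
      ((if ({a, c, d, e} : Finset (Fin n)) ∈ H then 1 else 0) +
      ((if ({a, b, d, e} : Finset (Fin n)) ∈ H then 1 else 0) +
      ((if ({a, b, c, e} : Finset (Fin n)) ∈ H then 1 else 0) +
      (if ({a, b, c, d} : Finset (Fin n)) ∈ H then 1 else 0))))) := by
  have hF : ({a, b, c, d, e} : Finset (Fin n)) ∈ S.powersetCard 5 := by
    rw [Finset.mem_powersetCard]
    constructor
    · intro x hx
      simp only [Finset.mem_insert, Finset.mem_singleton] at hx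
      rcases hx with rfl | rfl | rfl | rfl | rfl <;> assumption
    · rw [Finset.card_insert_of_notMem (by simp [hab, hac, had, hae]),
        Finset.card_insert_of_notMem (by simp [hbc, hbd, hbe]),
        Finset.card_insert_of_notMem (by simp [hcd, hce]), Finset.card_pair hde]
  have h1 := hS.2 _ hF
  rw [count_erase H _ (Finset.mem_powersetCard.mp hF).2, Finset.card_filter,
    Finset.sum_insert (by simp [hab, hac, had, hae]),
    Finset.sum_insert (by simp [hbc, hbd, hbe]),
    Finset.sum_insert (by simp [hcd, hce]), Finset.sum_pair hde] at h1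
  have e1 : ({a, b, c, d, e} : Finset (Fin n)).erase a = {b, c, d, e} := by
    ext z; simp only [Finset.mem_erase, Finset.mem_insert, Finset.mem_singleton]
    constructor
    · tauto
    · intro h
      refine ⟨?_, Or.inr h⟩
      rintro rfl
      rcases h with h | h | h | h <;> contradiction
  have e2 : ({a, b, c, d, e} : Finset (Fin n)).erase b = {a, c, d, e} := by
    ext z; simp only [Finset.mem_erase, Finset.mem_insert, Finset.mem_singleton]
    constructor
    · tauto
    · intro h
      refine ⟨?_, by tauto⟩
      rintro rfl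
      rcases h with h | h | h | h
      · exact hab h.symm
      · contradiction
      · contradiction
      · contradiction
  have e3 : ({a, b, c, d, e} : Finset (Fin n)).erase c = {a, b, d, e} := by
    ext z; simp only [Finset.mem_erase, Finset.mem_insert, Finset.mem_singleton]
    constructor
    · tauto
    · intro h
      refine ⟨?_, by tauto⟩
      rintro rfl
      rcases h with h | h | h | h
      · exact hac h.symm
      · exact hbc h.symm
      · contradiction
      · contradiction
  have e4' : ({a, b, c, d, e} : Finset (Fin n)).erase d = {a, b, c, e} := by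
    ext z; simp only [Finset.mem_erase, Finset.mem_insert, Finset.mem_singleton]
    constructor
    · tauto
    · intro h
      refine ⟨?_, by tauto⟩
      rintro rfl
      rcases h with h | h | h | h
      · exact had h.symm
      · exact hbd h.symm
      · exact hcd h.symm
      · contradiction
  have e5 : ({a, b, c, d, e} : Finset (Fin n)).erase e = {a, b, c, d} := by
    ext z; simp only [Finset.mem_erase, Finset.mem_insert, Finset.mem_singleton]
    constructor
    · tauto
    · intro h
      refine ⟨?_, by tauto⟩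
      rintro rfl
      rcases h with h | h | h | h
      · exact hae h.symm
      · exact hbe h.symm
      · exact hce h.symm
      · exact hde h.symm
  rw [e1, e2, e3, e4', e5] at h1
  exact h1

theorem col3 (a b c d : Fin n) (hab : a ≠ b) (hac : a ≠ c) (hbc : b ≠ c)
    (ha : χ a = true) (hb : χ b = true) (hc : χ c = true) (hd : χ d = false) :
    (({a, b, c, d} : Finset (Fin n)).filter fun x => χ x = true).card = 3 := by
  rw [Finset.filter_insert, if_pos ha, Finset.filter_insert, if_pos hb, Finset.filter_insert,
    if_pos hc, Finset.filter_singleton, if_neg (by rw [hd]; decide),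
    Finset.card_insert_of_notMem (by simp [hab, hac]),
    Finset.card_insert_of_notMem (by simp [hbc]), Finset.card_insert_of_notMem (by simp)]
  rfl

theorem col1 (a b c d : Fin n) (ha : χ a = true) (hb : χ b = false) (hc : χ c = false)
    (hd : χ d = false) : (({a, b, c, d} : Finset (Fin n)).filter fun x => χ x = true).card = 1 := by
  rw [Finset.filter_insert, if_pos ha, Finset.filter_insert, if_neg (by rw [hb]; decide),
    Finset.filter_insert, if_neg (by rw [hc]; decide), Finset.filter_singleton,
    if_neg (by rw [hd]; decide), Finset.card_insert_of_notMem (by simp)]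
  rfl

theorem card4 (a b c d : Fin n) (hab : a ≠ b) (hac : a ≠ c) (had : a ≠ d) (hbc : b ≠ c)
    (hbd : b ≠ d) (hcd : c ≠ d) : ({a, b, c, d} : Finset (Fin n)).card = 4 := by
  rw [Finset.card_insert_of_notMem (by simp [hab, hac, had]),
    Finset.card_insert_of_notMem (by simp [hbc, hbd]), Finset.card_pair hcd]

theorem mem3 (S : Finset (Fin n)) (hS : GSet H χ S) (a b c d : Fin n) (haS : a ∈ S) (hbS : b ∈ S)
    (hcS : c ∈ S) (hdS : d ∈ S) (hab : a ≠ b) (hac : a ≠ c) (hbc : b ≠ c)
    (ha : χ a = true) (hb : χ b = true) (hc : χ c = true) (hd : χ d = false) :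
    ({a, b, c, d} : Finset (Fin n)) ∈ H := by
  have had : a ≠ d := by rintro rfl; rw [ha] at hd; exact Bool.noConfusion hd
  have hbd : b ≠ d := by rintro rfl; rw [hb] at hd; exact Bool.noConfusion hd
  have hcd : c ≠ d := by rintro rfl; rw [hc] at hd; exact Bool.noConfusion hd
  refine (hS.1 _ ?_).2 (Or.inr (col3 χ a b c d hab hac hbc ha hb hc hd))
  rw [Finset.mem_powersetCard]
  refine ⟨?_, card4 a b c d hab hac had hbc hbd hcd⟩
  intro x hx
  simp only [Finset.mem_insert, Finset.mem_singleton] at hx
  rcases hx with rfl | rfl | rfl | rfl <;> assumption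

theorem mem1 (S : Finset (Fin n)) (hS : GSet H χ S) (a b c d : Fin n) (haS : a ∈ S) (hbS : b ∈ S)
    (hcS : c ∈ S) (hdS : d ∈ S) (hbc : b ≠ c) (hbd : b ≠ d) (hcd : c ≠ d)
    (ha : χ a = true) (hb : χ b = false) (hc : χ c = false) (hd : χ d = false) :
    ({a, b, c, d} : Finset (Fin n)) ∈ H := by
  have hab : a ≠ b := by rintro rfl; rw [ha] at hb; exact Bool.noConfusion hb
  have hac : a ≠ c := by rintro rfl; rw [ha] at hc; exact Bool.noConfusion hc
  have had : a ≠ d := by rintro rfl; rw [ha] at hd; exact Bool.noConfusion hd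
  refine (hS.1 _ ?_).2 (Or.inl (col1 χ a b c d ha hb hc hd))
  rw [Finset.mem_powersetCard]
  refine ⟨?_, card4 a b c d hab hac had hbc hbd hcd⟩
  intro x hx
  simp only [Finset.mem_insert, Finset.mem_singleton] at hx
  rcases hx with rfl | rfl | rfl | rfl <;> assumption

/-- The parity of the quadruple `a, x, y, y'`. -/
theorem par3 (S : Finset (Fin n)) (hS : GSet H χ S) (a b x y y' : Fin n) (haS : a ∈ S) (hbS : b ∈ S)
    (hxS : x ∈ S) (hyS : y ∈ S) (hyS' : y' ∈ S) (hax : a ≠ x) (hby : b ≠ y) (hby' : b ≠ y')
    (hyy : y ≠ y') (ha : χ a = true) (hb : χ b = false) (hx : χ x = true) (hy : χ y = false)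
    (hy' : χ y' = false) : Even ((if ({a, x, y, y'} : Finset (Fin n)) ∈ H then 1 else 0) +
      ((if Mab H a b x y' = true then 1 else 0) + (if Mab H a b x y = true then 1 else 0))) := by
  have ne : ∀ u v : Fin n, χ u = true → χ v = false → u ≠ v := by
    intro u v hu hv h
    rw [h, hv] at hu
    exact Bool.noConfusion hu
  have h := even_five H χ S hS a x b y y' hax (ne _ _ ha hb) (ne _ _ ha hy) (ne _ _ ha hy')
    (ne _ _ hx hb) (ne _ _ hx hy) (ne _ _ hx hy') hby hby' hyy haS hxS hbS hyS hyS'
  have h1 := mem1 H χ S hS x b y y' hxS hbS hyS hyS' hby hby' hyy hx hb hy hy'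
  have h2 := mem1 H χ S hS a b y y' haS hbS hyS hyS' hby hby' hyy ha hb hy hy'
  rw [if_pos h1, if_pos h2] at h
  have e1 : (Mab H a b x y' = true) ↔ ({a, x, b, y'} : Finset (Fin n)) ∈ H := decide_eq_true_iff
  have e2 : (Mab H a b x y = true) ↔ ({a, x, b, y} : Finset (Fin n)) ∈ H := decide_eq_true_iff
  rw [Nat.even_iff] at h ⊢
  simp only [e1, e2]
  omega

theorem gir_two (M : Fin n → Fin n → Bool) (x x' y y' : Fin n) (hxx : x ≠ x') (hyy : y ≠ y')
    (hx : χ x = true) (hx' : χ x' = true) (hy : χ y = false) (hy' : χ y' = false) :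
    ({x, x', y, y'} : Finset (Fin n)) ∈ Gir χ M ↔
      Odd ((if M x y = true then 1 else 0) + (if M x y' = true then 1 else 0) +
        (if M x' y = true then 1 else 0) + (if M x' y' = true then 1 else 0)) := by
  have ne : ∀ u v : Fin n, χ u = true → χ v = false → u ≠ v := by
    intro u v hu hv h
    rw [h, hv] at hu
    exact Bool.noConfusion hu
  have hxy := ne _ _ hx hy
  have hxy' := ne _ _ hx hy'
  have hxy2 := ne _ _ hx' hy
  have hxy2' := ne _ _ hx' hy'
  have hc : (({x, x', y, y'} : Finset (Fin n)).filter fun z => χ z = true).card = 2 := by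
    rw [Finset.filter_insert, if_pos hx, Finset.filter_insert, if_pos hx', Finset.filter_insert,
      if_neg (by rw [hy]; decide), Finset.filter_singleton, if_neg (by rw [hy']; decide),
      Finset.card_insert_of_notMem (by simp [hxx]), Finset.card_insert_of_notMem (by simp)]
    rfl
  have hp : ((({x, x', y, y'} : Finset (Fin n)) ×ˢ ({x, x', y, y'} : Finset (Fin n))).filter fun p =>
      χ p.1 = true ∧ χ p.2 = false ∧ M p.1 p.2 = true).card =
      (if M x y = true then 1 else 0) + (if M x y' = true then 1 else 0) +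
        (if M x' y = true then 1 else 0) + (if M x' y' = true then 1 else 0) := by
    rw [Finset.card_filter, Finset.sum_product]
    have key : ∀ u : Fin n, ∑ v ∈ ({x, x', y, y'} : Finset (Fin n)),
        (if χ (u, v).1 = true ∧ χ (u, v).2 = false ∧ M (u, v).1 (u, v).2 = true then 1 else 0) =
        if χ u = true then ((if M u y = true then 1 else 0) + (if M u y' = true then 1 else 0)) else 0 := by
      intro u
      rw [Finset.sum_insert (by simp [hxx, hxy, hxy']), Finset.sum_insert (by simp [hxy2, hxy2']),
        Finset.sum_pair hyy]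
      simp only [hx, hx', hy, hy']
      by_cases hu : χ u = true
      · simp [hu]
      · rw [Bool.not_eq_true] at hu
        simp [hu]
    rw [Finset.sum_congr rfl fun u _ => key u, Finset.sum_insert (by simp [hxx, hxy, hxy']),
      Finset.sum_insert (by simp [hxy2, hxy2']), Finset.sum_pair hyy]
    simp only [hx, hx', hy, hy', if_true, Bool.false_eq_true, if_false]
    ring
  unfold Gir
  rw [Finset.mem_filter, Finset.mem_powersetCard, hc, hp]
  constructor
  · rintro ⟨_, h | h⟩
    · exact absurd h (by decide)
    · exact h.2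
  · intro h
    exact ⟨⟨Finset.subset_univ _, card4 x x' y y' hxx hxy hxy' hxy2 hxy2' hyy⟩, Or.inr ⟨rfl, h⟩⟩

/-- On a set that looks like Giraud's construction, the 4-graph is given by two of its vertices. -/
theorem gir_of_GSet (a b : Fin n) (e : Finset (Fin n)) (he : e.card = 4) (hae : a ∉ e) (hbe : b ∉ e)
    (ha : χ a = true) (hb : χ b = false) (hS : GSet H χ (insert a (insert b e))) :
    e ∈ H ↔ e ∈ Gir χ (Mab H a b) := by
  have haS : a ∈ insert a (insert b e) := Finset.mem_insert_self _ _
  have hbS : b ∈ insert a (insert b e) := Finset.mem_insert_of_mem (Finset.mem_insert_self _ _)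
  have hsub : ∀ x ∈ e, x ∈ insert a (insert b e) := fun x hx =>
    Finset.mem_insert_of_mem (Finset.mem_insert_of_mem hx)
  have heS : e ∈ (insert a (insert b e)).powersetCard 4 := by
    rw [Finset.mem_powersetCard]
    exact ⟨hsub, he⟩
  obtain ⟨h1, h2⟩ := hS.1 e heS
  have hle : (e.filter fun x => χ x = true).card ≤ 4 := by
    rw [← he]
    exact Finset.card_filter_le _ _
  have hmem : e ∈ Gir χ (Mab H a b) ↔ Odd (e.filter fun x => χ x = true).card ∨
      ((e.filter fun x => χ x = true).card = 2 ∧ Odd ((e ×ˢ e).filter fun p =>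
        χ p.1 = true ∧ χ p.2 = false ∧ Mab H a b p.1 p.2 = true).card) := by
    unfold Gir
    rw [Finset.mem_filter, Finset.mem_powersetCard]
    constructor
    · exact fun h => h.2
    · exact fun h => ⟨⟨Finset.subset_univ _, he⟩, h⟩
  by_cases h04 : (e.filter fun x => χ x = true).card = 0 ∨ (e.filter fun x => χ x = true).card = 4
  · rw [hmem]
    constructor
    · intro h; exact absurd h (h1 h04)
    · rintro (h | h)
      · rcases h04 with h5 | h5 <;> rw [h5] at h <;> exact absurd h (by decide)
      · rcases h04 with h5 | h5 <;> rw [h5] at h <;> exact absurd h.1 (by decide)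
  · by_cases h13 : (e.filter fun x => χ x = true).card = 1 ∨ (e.filter fun x => χ x = true).card = 3
    · rw [hmem]
      constructor
      · intro _
        left
        rcases h13 with h5 | h5 <;> rw [h5] <;> decide
      · intro _; exact h2 h13
    · have hc2 : (e.filter fun x => χ x = true).card = 2 := by omega
      have hc2' : (e.filter fun x => ¬ χ x = true).card = 2 := by
        have h5 := Finset.card_filter_add_card_filter_not (s := e) (fun x => χ x = true)
        omega
      obtain ⟨x, x', hxx, hX⟩ := Finset.card_eq_two.mp hc2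
      obtain ⟨y, y', hyy, hY⟩ := Finset.card_eq_two.mp hc2'
      have hxe : x ∈ e.filter fun x => χ x = true := by rw [hX]; simp
      have hxe' : x' ∈ e.filter fun x => χ x = true := by rw [hX]; simp
      have hye : y ∈ e.filter fun x => ¬ χ x = true := by rw [hY]; simp
      have hye' : y' ∈ e.filter fun x => ¬ χ x = true := by rw [hY]; simp
      rw [Finset.mem_filter] at hxe hxe' hye hye'
      rw [Bool.not_eq_true] at hye hye'
      have hee : e = {x, x', y, y'} := by
        have h5 := Finset.filter_union_filter_not_eq (fun x => χ x = true) e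
        rw [hX, hY] at h5
        rw [← h5]
        ext z
        simp only [Finset.mem_union, Finset.mem_insert, Finset.mem_singleton]
        tauto
      have nex : ∀ z ∈ e, a ≠ z := fun z hz h => hae (h ▸ hz)
      have ney : ∀ z ∈ e, b ≠ z := fun z hz h => hbe (h ▸ hz)
      have p1 := par3 H χ _ hS a b x y y' haS hbS (hsub _ hxe.1) (hsub _ hye.1) (hsub _ hye'.1)
        (nex _ hxe.1) (ney _ hye.1) (ney _ hye'.1) hyy ha hb hxe.2 hye.2 hye'.2
      have p2 := par3 H χ _ hS a b x' y y' haS hbS (hsub _ hxe'.1) (hsub _ hye.1) (hsub _ hye'.1)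
        (nex _ hxe'.1) (ney _ hye.1) (ney _ hye'.1) hyy ha hb hxe'.2 hye.2 hye'.2
      have ne : ∀ u v : Fin n, χ u = true → χ v = false → u ≠ v := by
        intro u v hu hv h
        rw [h, hv] at hu
        exact Bool.noConfusion hu
      have p3 := even_five H χ _ hS a x x' y y' (nex _ hxe.1) (nex _ hxe'.1) (nex _ hye.1)
        (nex _ hye'.1) hxx (ne _ _ hxe.2 hye.2) (ne _ _ hxe.2 hye'.2) (ne _ _ hxe'.2 hye.2)
        (ne _ _ hxe'.2 hye'.2) hyy haS (hsub _ hxe.1) (hsub _ hxe'.1) (hsub _ hye.1)
        (hsub _ hye'.1)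
      have q1 := mem3 H χ _ hS a x x' y haS (hsub _ hxe.1) (hsub _ hxe'.1) (hsub _ hye.1)
        (nex _ hxe.1) (nex _ hxe'.1) hxx ha hxe.2 hxe'.2 hye.2
      have q2 := mem3 H χ _ hS a x x' y' haS (hsub _ hxe.1) (hsub _ hxe'.1) (hsub _ hye'.1)
        (nex _ hxe.1) (nex _ hxe'.1) hxx ha hxe.2 hxe'.2 hye'.2
      rw [if_pos q1, if_pos q2] at p3
      have g1 := gir_two χ (Mab H a b) x x' y y' hxx hyy hxe.2 hxe'.2 hye.2 hye'.2
      rw [← hee] at g1 p3
      rw [g1, Nat.odd_iff]
      rw [Nat.even_iff] at p1 p2 p3
      by_cases hH : e ∈ H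
      · rw [if_pos hH] at p3
        refine ⟨fun _ => ?_, fun _ => hH⟩
        omega
      · rw [if_neg hH] at p3
        refine ⟨fun h => absurd h hH, fun h => ?_⟩
        exfalso
        omega

end gir

end Pool.Agent.Lib.MP_afdd4d_co.MC
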