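import Pool.Agent.Lib.MP_afdd4d_co.MC.Fin

/-!
# Properties of Giraud's 4-graphs
-/

namespace Pool.Agent.Lib.MP_afdd4d_co.MC

open Finset K8

section sharp
variable {n : ℕ}

theorem odd_of_pow (k : ℕ) : ((-1 : ℤˣ) ^ k = -1) ↔ Odd k := by
  rcases Nat.even_or_odd k with h | h
  · rw [h.neg_one_pow]
    constructor
    · intro h1; exact absurd h1 (by decide)
    · intro h1; exact absurd h (Nat.not_even_iff_odd.mpr h1)
  · rw [h.neg_one_pow]
    exact ⟨fun _ => h, fun _ => rfl⟩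

theorem Gir_eq_GH (f : Fin n × Fin n → ℤˣ) (χ : Fin n → Bool) (M : Fin n → Fin n → Bool)
    (hM : ∀ x y, M x y = true ↔ f (x, y) = -1) :
    Gir χ M = GH f (univ.filter fun x => χ x = true) := by
  ext e
  rw [mem_GH]
  unfold Gir
  rw [Finset.mem_filter, Finset.mem_powersetCard]
  have e1 : e ∩ (univ.filter fun x => χ x = true) = e.filter fun x => χ x = true := by
    ext z
    simp
  have e2 : e \ (univ.filter fun x => χ x = true) = e.filter fun x => χ x = false := by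
    ext z
    simp
  rw [e1, e2]
  have e3 : sgn f (e.filter fun x => χ x = true) (e.filter fun x => χ x = false) = -1 ↔
      Odd ((e ×ˢ e).filter fun p => χ p.1 = true ∧ χ p.2 = false ∧ M p.1 p.2 = true).card := by
    unfold sgn
    rw [prod_units_eq_pow, odd_of_pow]
    have e4 : (((e.filter fun x => χ x = true) ×ˢ (e.filter fun x => χ x = false)).filter
        fun y => f y = -1) = (e ×ˢ e).filter fun p => χ p.1 = true ∧ χ p.2 = false ∧
          M p.1 p.2 = true := by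
      ext ⟨x, y⟩
      simp only [Finset.mem_filter, Finset.mem_product]
      rw [hM]
      tauto
    rw [e4]
  constructor
  · rintro ⟨⟨_, h4⟩, h⟩
    refine ⟨h4, ?_⟩
    rcases h with h | h
    · exact Or.inl h
    · exact Or.inr ⟨h.1, e3.mpr h.2⟩
  · rintro ⟨h4, h⟩
    refine ⟨⟨Finset.subset_univ _, h4⟩, ?_⟩
    rcases h with h | h
    · exact Or.inl h
    · exact Or.inr ⟨h.1, e3.mp h.2⟩

theorem Gir_card4 (χ : Fin n → Bool) (M : Fin n → Fin n → Bool) : ∀ e ∈ Gir χ M, e.card = 4 := by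
  intro e he
  unfold Gir at he
  rw [Finset.mem_filter, Finset.mem_powersetCard] at he
  exact he.1.2

theorem Gir_free (χ : Fin n → Bool) (M : Fin n → Fin n → Bool) :
    ∀ S : Finset (Fin n), S.card = 5 → ∃ e ∈ S.powersetCard 4, e ∉ Gir χ M := by
  intro S hS
  rw [Gir_eq_GH (fun p => if M p.1 p.2 = true then -1 else 1) χ M]
  · exact GH_free _ _ S hS
  · intro x y
    simp only
    cases M x y <;> decide

theorem Gir_mono (χ : Fin n → Bool) (M : Fin n → Fin n → Bool) : monoF (Gir χ M) χ = ∅ := by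
  unfold monoF
  rw [Finset.filter_eq_empty_iff]
  intro e he h
  have h4 := Gir_card4 χ M e he
  rw [mono_iff χ e h4] at h
  unfold Gir at he
  rw [Finset.mem_filter] at he
  rcases h with h | h <;> rw [h] at he
  · rcases he.2 with h1 | h1
    · exact absurd h1 (by decide)
    · exact absurd h1.1 (by decide)
  · rcases he.2 with h1 | h1
    · exact absurd h1 (by decide)
    · exact absurd h1.1 (by decide)

theorem Gir_large_card (n : ℕ) : ∃ χ : Fin n → Bool, ∃ M : Fin n → Fin n → Bool,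
    ((n.choose 4 : ℕ) : ℝ) - 5 / 16 * (((n : ℝ) + 1) ^ 4 / 24) ≤ ((Gir χ M).card : ℝ) := by
  classical
  set A : Finset (Fin n) := univ.filter fun x => (x : ℕ) < n / 2 with hA
  have hAc : A.card = n / 2 := by
    have : A.card = (Finset.range (n / 2)).card := by
      refine Finset.card_bij (fun x _ => (x : ℕ)) ?_ ?_ ?_
      · intro x hx
        rw [hA, Finset.mem_filter] at hx
        exact Finset.mem_range.mpr hx.2
      · intro x _ y _ h
        exact Fin.ext h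
      · intro k hk
        have hk' := Finset.mem_range.mp hk
        refine ⟨⟨k, by omega⟩, ?_, rfl⟩
        rw [hA, Finset.mem_filter]
        exact ⟨Finset.mem_univ _, hk'⟩
    rw [this, Finset.card_range]
  have hBc : Aᶜ.card = n - n / 2 := by
    rw [Finset.card_compl, hAc, Fintype.card_fin]
  obtain ⟨f, hf⟩ := exists_sign A Aᶜ
  refine ⟨fun x => decide (x ∈ A), fun x y => decide (f (x, y) = -1), ?_⟩
  have hG : Gir (fun x => decide (x ∈ A)) (fun x y => decide (f (x, y) = -1)) = GH f A := by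
    rw [Gir_eq_GH f _ _ fun x y => decide_eq_true_iff]
    congr 1
    ext z
    simp
  rw [hG]
  have h1 := GH_compl f A
  rw [Finset.card_product, Finset.card_powersetCard, Finset.card_powersetCard] at hf
  set c := (((A.powersetCard 2) ×ˢ (Aᶜ.powersetCard 2)).filter fun z => sgn f z.1 z.2 = 1).card
  have hsub : GH f A ⊆ univ.powersetCard 4 := Finset.filter_subset _ _
  have h2 := Finset.card_sdiff_add_card_eq_card hsub
  rw [Finset.card_powersetCard, Finset.card_univ, Fintype.card_fin] at h2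
  rw [hAc, hBc] at h1 hf
  have h3 : (((univ.powersetCard 4) \ GH f A).card : ℝ) + ((GH f A).card : ℝ) =
      ((n.choose 4 : ℕ) : ℝ) := by
    exact_mod_cast h2
  have h4 : (((univ.powersetCard 4) \ GH f A).card : ℝ) ≤ ((n / 2).choose 4 : ℕ) +
      ((n - n / 2).choose 4 : ℕ) + (c : ℝ) := by exact_mod_cast h1
  have h5 : 2 * (c : ℝ) ≤ ((n / 2).choose 2 : ℕ) * ((n - n / 2).choose 2 : ℕ) := by
    exact_mod_cast hf
  have ha : ((n / 2 : ℕ) : ℝ) ≤ ((n : ℝ) + 1) / 2 := by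
    have : 2 * (n / 2) ≤ n + 1 := by omega
    have h : 2 * ((n / 2 : ℕ) : ℝ) ≤ (n : ℝ) + 1 := by exact_mod_cast this
    linarith
  have hb : ((n - n / 2 : ℕ) : ℝ) ≤ ((n : ℝ) + 1) / 2 := by
    have : 2 * (n - n / 2) ≤ n + 1 := by omega
    have h : 2 * ((n - n / 2 : ℕ) : ℝ) ≤ (n : ℝ) + 1 := by exact_mod_cast this
    linarith
  have ha0 : (0 : ℝ) ≤ ((n / 2 : ℕ) : ℝ) := Nat.cast_nonneg _
  have hb0 : (0 : ℝ) ≤ ((n - n / 2 : ℕ) : ℝ) := Nat.cast_nonneg _
  set x : ℝ := ((n : ℝ) + 1) / 2 with hx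
  have hx0 : 0 ≤ x := by positivity
  have g1 : (((n / 2).choose 4 : ℕ) : ℝ) ≤ x ^ 4 / 24 :=
    le_trans (choose4_le _) (div_le_div_of_nonneg_right (pow_le_pow_left₀ ha0 ha 4) (by norm_num))
  have g2 : (((n - n / 2).choose 4 : ℕ) : ℝ) ≤ x ^ 4 / 24 :=
    le_trans (choose4_le _) (div_le_div_of_nonneg_right (pow_le_pow_left₀ hb0 hb 4) (by norm_num))
  have g3 : (((n / 2).choose 2 : ℕ) : ℝ) ≤ x ^ 2 / 2 :=
    le_trans (choose2_le _) (div_le_div_of_nonneg_right (pow_le_pow_left₀ ha0 ha 2) (by norm_num))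
  have g4 : (((n - n / 2).choose 2 : ℕ) : ℝ) ≤ x ^ 2 / 2 :=
    le_trans (choose2_le _) (div_le_div_of_nonneg_right (pow_le_pow_left₀ hb0 hb 2) (by norm_num))
  have g5 : (((n / 2).choose 2 : ℕ) : ℝ) * (((n - n / 2).choose 2 : ℕ) : ℝ) ≤
      (x ^ 2 / 2) * (x ^ 2 / 2) := mul_le_mul g3 g4 (Nat.cast_nonneg _) (by positivity)
  have e1 : ((n : ℝ) + 1) ^ 4 = 16 * x ^ 4 := by rw [hx]; ring
  rw [e1]
  nlinarith [h3, h4, h5, g1, g2, g5]

end sharp

theorem Gir_large : ∀ ε : ℝ, 0 < ε → ∃ N : ℕ, ∀ n : ℕ, N ≤ n →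
    ∃ χ : Fin n → Bool, ∃ M : Fin n → Fin n → Bool,
      ((11 / 16 : ℝ) - ε) * ((n.choose 4 : ℕ) : ℝ) ≤ ((Gir χ M).card : ℝ) := by
  intro ε hε
  have h1 : Filter.Tendsto (fun n : ℕ => (1 + 1 / (n : ℝ)) ^ 4) Filter.atTop (nhds 1) := by
    have h0 : Filter.Tendsto (fun n : ℕ => (1 : ℝ) / (n : ℝ)) Filter.atTop (nhds 0) :=
      tendsto_one_div_atTop_nhds_zero_nat
    have h1 := ((tendsto_const_nhds (x := (1 : ℝ))).add h0).pow 4
    simpa using h1
  have h2 := tendsto_desc 4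
  have h3 : Filter.Tendsto (fun n : ℕ => (5 / 16 : ℝ) * (1 + 1 / (n : ℝ)) ^ 4 -
      (5 / 16 + ε) * ((n.descFactorial 4 : ℝ) / (n : ℝ) ^ 4)) Filter.atTop
      (nhds ((5 / 16 : ℝ) * 1 - (5 / 16 + ε) * 1)) := (h1.const_mul _).sub (h2.const_mul _)
  have h4 := h3.eventually (gt_mem_nhds (show (5 / 16 : ℝ) * 1 - (5 / 16 + ε) * 1 < 0 by linarith))
  obtain ⟨N, hN⟩ := Filter.eventually_atTop.mp h4
  refine ⟨max N 1, fun n hn => ?_⟩
  have hn1 : 1 ≤ n := le_trans (le_max_right _ _) hn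
  have hn0 : (0 : ℝ) < n := by exact_mod_cast hn1
  have h5 := hN n (le_trans (le_max_left _ _) hn)
  obtain ⟨χ, M, hH3⟩ := Gir_large_card n
  refine ⟨χ, M, le_trans ?_ hH3⟩
  have h6 : (n.descFactorial 4 : ℝ) = 24 * ((n.choose 4 : ℕ) : ℝ) := by
    rw [Nat.descFactorial_eq_factorial_mul_choose]
    push_cast
    norm_num [Nat.factorial]
  have h7 : (5 / 16 : ℝ) * ((n : ℝ) + 1) ^ 4 ≤ (5 / 16 + ε) * (24 * ((n.choose 4 : ℕ) : ℝ)) := by
    rw [← h6]
    have h8 : (5 / 16 : ℝ) * (1 + 1 / (n : ℝ)) ^ 4 ≤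
        (5 / 16 + ε) * ((n.descFactorial 4 : ℝ) / (n : ℝ) ^ 4) := by linarith
    have h9 := mul_le_mul_of_nonneg_right h8 (pow_pos hn0 4).le
    have e1 : (5 / 16 : ℝ) * (1 + 1 / (n : ℝ)) ^ 4 * (n : ℝ) ^ 4 = (5 / 16 : ℝ) * ((n : ℝ) + 1) ^ 4 := by
      rw [mul_assoc, ← mul_pow]
      congr 2
      field_simp
    have e2 : (5 / 16 + ε) * ((n.descFactorial 4 : ℝ) / (n : ℝ) ^ 4) * (n : ℝ) ^ 4 =
        (5 / 16 + ε) * (n.descFactorial 4 : ℝ) := by
      field_simp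
    rwa [e1, e2] at h9
  linarith

end Pool.Agent.Lib.MP_afdd4d_co.MC
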