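import Pool.Agent.Lib.MP_afdd4d_co.MC.Row
import Pool.Agent.Lib.MP_afdd4d_co.MC.DatA

/-!
# The inequalities for the first half of the representatives
-/

namespace Pool.Agent.Lib.MP_afdd4d_co.MC

open K8

set_option maxRecDepth 100000 in
theorem rowA0 : allN (fun k => chA DatA.D (Nat.add 0 k)) 8 = true := by decide +kernel

set_option maxRecDepth 100000 in
theorem rowA1 : allN (fun k => chA DatA.D (Nat.add 8 k)) 8 = true := by decide +kernel

set_option maxRecDepth 100000 in
theorem rowA2 : allN (fun k => chA DatA.D (Nat.add 16 k)) 8 = true := by decide +kernel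

set_option maxRecDepth 100000 in
theorem rowA3 : allN (fun k => chA DatA.D (Nat.add 24 k)) 8 = true := by decide +kernel

set_option maxRecDepth 100000 in
theorem rowA4 : allN (fun k => chA DatA.D (Nat.add 32 k)) 8 = true := by decide +kernel

set_option maxRecDepth 100000 in
theorem rowA5 : allN (fun k => chA DatA.D (Nat.add 40 k)) 8 = true := by decide +kernel

set_option maxRecDepth 100000 in
theorem rowA6 : allN (fun k => chA DatA.D (Nat.add 48 k)) 8 = true := by decide +kernel

set_option maxRecDepth 100000 in
theorem rowA7 : allN (fun k => chA DatA.D (Nat.add 56 k)) 8 = true := by decide +kernel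

set_option maxRecDepth 100000 in
theorem rowA8 : allN (fun k => chA DatA.D (Nat.add 64 k)) 8 = true := by decide +kernel

set_option maxRecDepth 100000 in
theorem rowA9 : allN (fun k => chA DatA.D (Nat.add 72 k)) 8 = true := by decide +kernel

end Pool.Agent.Lib.MP_afdd4d_co.MC
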