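import Pool.Agent.Lib.MP_afdd4d_co.MC.Row
import Pool.Agent.Lib.MP_afdd4d_co.MC.DatA

/-!
# The inequalities for the second half of the representatives
-/

namespace Pool.Agent.Lib.MP_afdd4d_co.MC

open K8

set_option maxRecDepth 100000 in
theorem rowA10 : allN (fun k => chA DatA.D (Nat.add 80 k)) 8 = true := by decide +kernel

set_option maxRecDepth 100000 in
theorem rowA11 : allN (fun k => chA DatA.D (Nat.add 88 k)) 8 = true := by decide +kernel

set_option maxRecDepth 100000 in
theorem rowA12 : allN (fun k => chA DatA.D (Nat.add 96 k)) 8 = true := by decide +kernel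

set_option maxRecDepth 100000 in
theorem rowA13 : allN (fun k => chA DatA.D (Nat.add 104 k)) 8 = true := by decide +kernel

set_option maxRecDepth 100000 in
theorem rowA14 : allN (fun k => chA DatA.D (Nat.add 112 k)) 8 = true := by decide +kernel

set_option maxRecDepth 100000 in
theorem rowA15 : allN (fun k => chA DatA.D (Nat.add 120 k)) 8 = true := by decide +kernel

set_option maxRecDepth 100000 in
theorem rowA16 : allN (fun k => chA DatA.D (Nat.add 128 k)) 8 = true := by decide +kernel

set_option maxRecDepth 100000 in
theorem rowA17 : allN (fun k => chA DatA.D (Nat.add 136 k)) 8 = true := by decide +kernel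

set_option maxRecDepth 100000 in
theorem rowA18 : allN (fun k => chA DatA.D (Nat.add 144 k)) 8 = true := by decide +kernel

set_option maxRecDepth 100000 in
theorem rowA19 : allN (fun k => chA DatA.D (Nat.add 152 k)) 8 = true := by decide +kernel

end Pool.Agent.Lib.MP_afdd4d_co.MC
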