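import Pool.Agent.Lib.MP_afdd4d_co.MC.Num
import Pool.Agent.Lib.MP_afdd4d_co.MC.RowA1
import Pool.Agent.Lib.MP_afdd4d_co.MC.RowA2

/-!
# The inequality for 4-graphs with a colouring of the vertices
-/

namespace Pool.Agent.Lib.MP_afdd4d_co.MC

open Finset K8

theorem blk8 {f : ℕ → Bool} (c : ℕ) (h : allN (fun k => f (Nat.add c k)) 8 = true) (k : ℕ)
    (h1 : c ≤ k) (h2 : k < c + 8) : f k = true := by
  have h3 := allN_spec _ _ h (k - c) (by omega)
  have e : Nat.add c (k - c) = k := by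
    change c + (k - c) = k
    omega
  simp only [e] at h3
  exact h3

theorem rowA_all : ∀ k < 160, chA DatA.D k = true := by
  intro k hk
  by_cases h0 : k < 8
  · exact blk8 (f := chA DatA.D) 0 rowA0 k (by omega) (by omega)
  by_cases h1 : k < 16
  · exact blk8 (f := chA DatA.D) 8 rowA1 k (by omega) (by omega)
  by_cases h2 : k < 24
  · exact blk8 (f := chA DatA.D) 16 rowA2 k (by omega) (by omega)
  by_cases h3 : k < 32
  · exact blk8 (f := chA DatA.D) 24 rowA3 k (by omega) (by omega)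
  by_cases h4 : k < 40
  · exact blk8 (f := chA DatA.D) 32 rowA4 k (by omega) (by omega)
  by_cases h5 : k < 48
  · exact blk8 (f := chA DatA.D) 40 rowA5 k (by omega) (by omega)
  by_cases h6 : k < 56
  · exact blk8 (f := chA DatA.D) 48 rowA6 k (by omega) (by omega)
  by_cases h7 : k < 64
  · exact blk8 (f := chA DatA.D) 56 rowA7 k (by omega) (by omega)
  by_cases h8 : k < 72
  · exact blk8 (f := chA DatA.D) 64 rowA8 k (by omega) (by omega)
  by_cases h9 : k < 80
  · exact blk8 (f := chA DatA.D) 72 rowA9 k (by omega) (by omega)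
  by_cases h10 : k < 88
  · exact blk8 (f := chA DatA.D) 80 rowA10 k (by omega) (by omega)
  by_cases h11 : k < 96
  · exact blk8 (f := chA DatA.D) 88 rowA11 k (by omega) (by omega)
  by_cases h12 : k < 104
  · exact blk8 (f := chA DatA.D) 96 rowA12 k (by omega) (by omega)
  by_cases h13 : k < 112
  · exact blk8 (f := chA DatA.D) 104 rowA13 k (by omega) (by omega)
  by_cases h14 : k < 120
  · exact blk8 (f := chA DatA.D) 112 rowA14 k (by omega) (by omega)
  by_cases h15 : k < 128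
  · exact blk8 (f := chA DatA.D) 120 rowA15 k (by omega) (by omega)
  by_cases h16 : k < 136
  · exact blk8 (f := chA DatA.D) 128 rowA16 k (by omega) (by omega)
  by_cases h17 : k < 144
  · exact blk8 (f := chA DatA.D) 136 rowA17 k (by omega) (by omega)
  by_cases h18 : k < 152
  · exact blk8 (f := chA DatA.D) 144 rowA18 k (by omega) (by omega)
  exact blk8 (f := chA DatA.D) 152 rowA19 k (by omega) (by omega)

section fin
variable {n : ℕ} (H : Finset (Finset (Fin n))) (χ : Fin n → Bool)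

theorem card_le_pow (F : Finset (Finset (Fin n))) (hF : ∀ e ∈ F, e.card = 4) :
    (F.card : ℝ) ≤ (n : ℝ) ^ 4 / 24 := by
  have h1 : F ⊆ (univ : Finset (Fin n)).powersetCard 4 := by
    intro e he
    rw [Finset.mem_powersetCard]
    exact ⟨Finset.subset_univ _, hF e he⟩
  have h2 := Finset.card_le_card h1
  rw [Finset.card_powersetCard, Finset.card_univ, Fintype.card_fin] at h2
  have h3 : (F.card : ℝ) ≤ ((n.choose 4 : ℕ) : ℝ) := by exact_mod_cast h2
  exact le_trans h3 (choose4_le n)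

theorem symm_card4 (h4 : ∀ e ∈ H, e.card = 4) (M : Fin n → Fin n → Bool) :
    ∀ e ∈ symmDiff H (Gir χ M), e.card = 4 := by
  intro e he
  rw [Finset.mem_symmDiff] at he
  rcases he with h | h
  · exact h4 e h.1
  · have h1 := h.1
    unfold Gir at h1
    rw [Finset.mem_filter, Finset.mem_powersetCard] at h1
    exact h1.1.2

theorem bound_n (hn : 9 ≤ n) (h4 : ∀ e ∈ H, e.card = 4)
    (hfree : ∀ S : Finset (Fin n), S.card = 5 → ∃ e ∈ S.powersetCard 4, e ∉ H) :
    ∃ M : Fin n → Fin n → Bool, (H.card : ℝ) + ((symmDiff H (Gir χ M)).card : ℝ) / 2000 ≤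
      11 / 384 * (n : ℝ) ^ 4 + 7 / 10 * ((monoF H χ).card : ℝ) + 4 * (n : ℝ) ^ 3 := by
  have hI := globalA H χ DatA.D DatA.ok rowA_all h4 hfree
  set a : ℝ := ((univ.filter fun x => χ x = true).card : ℝ) with ha
  set b : ℝ := ((univ.filter fun x => χ x = false).card : ℝ) with hb
  have hx : (9 : ℝ) ≤ n := by exact_mod_cast hn
  have hab : a + b = (n : ℝ) := by
    have h1 := Finset.card_filter_add_card_filter_not (s := (univ : Finset (Fin n)))
      (fun x => χ x = true)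
    rw [Finset.card_univ, Fintype.card_fin] at h1
    have h2 : (univ.filter fun x => ¬ χ x = true) = univ.filter fun x => χ x = false := by
      apply Finset.filter_congr
      intro x _
      rw [Bool.not_eq_true]
    rw [h2] at h1
    rw [ha, hb]
    exact_mod_cast h1
  have ha0 : 0 ≤ a := Nat.cast_nonneg _
  have hb0 : 0 ≤ b := Nat.cast_nonneg _
  have h1 := simple_ineq (n : ℝ) (H.card : ℝ) ((monoF H χ).card : ℝ) (a * b) (NG H χ)
    ((n.descFactorial 6 : ℕ) : ℝ) hx (Nat.cast_nonneg _) (card_le_pow H h4) (Nat.cast_nonneg _)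
    (mul_nonneg ha0 hb0) (desc6_le n) (desc6_ge n (by omega)) hI
  by_cases hpos : 0 < (univ.filter fun x => χ x = true).card ∧
      0 < (univ.filter fun x => χ x = false).card
  · obtain ⟨M, hM⟩ := exists_pair H χ h4 hpos.1 hpos.2
    exact ⟨M, final_ineq (n : ℝ) _ _ a b (NG H χ) _ hx ha0 hb0 hab (Nat.cast_nonneg _)
      (card_le_pow _ (symm_card4 H χ h4 M)) (NG_nonneg H χ) hM h1⟩
  · have hz : a * b = 0 := by
      rw [not_and_or, not_lt, not_lt, Nat.le_zero, Nat.le_zero] at hpos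
      rcases hpos with h | h
      · rw [ha, h]; simp
      · rw [hb, h]; simp
    refine ⟨fun _ _ => false, final_ineq (n : ℝ) _ _ a b (NG H χ) _ hx ha0 hb0 hab
      (Nat.cast_nonneg _) (card_le_pow _ (symm_card4 H χ h4 _)) (NG_nonneg H χ) ?_ h1⟩
    rw [hz]
    simpa using NG_nonneg H χ

end fin

/-- The main theorem. -/
theorem mono_bound : ∀ ε : ℝ, 0 < ε → ∃ N : ℕ, ∀ n : ℕ, N ≤ n → ∀ H : Finset (Finset (Fin n)),
    (∀ e ∈ H, e.card = 4) →
    (∀ S : Finset (Fin n), S.card = 5 → ∃ e ∈ S.powersetCard 4, e ∉ H) →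
    ∀ χ : Fin n → Bool, ∃ M : Fin n → Fin n → Bool,
      (H.card : ℝ) + ((symmDiff H (Gir χ M)).card : ℝ) / 2000 ≤
        (11 / 16 + ε) * ((n.choose 4 : ℕ) : ℝ) + 7 / 10 * ((monoF H χ).card : ℝ) := by
  intro ε hε
  obtain ⟨N, hN⟩ := exists_nat_ge (110 / ε + 12)
  refine ⟨max N 9, fun n hn H h4 hfree χ => ?_⟩
  have hn9 : 9 ≤ n := le_trans (le_max_right _ _) hn
  have hnN : (N : ℝ) ≤ n := by exact_mod_cast le_trans (le_max_left _ _) hn
  obtain ⟨M, hM⟩ := bound_n H χ hn9 h4 hfree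
  refine ⟨M, ?_⟩
  have h1 := choose4_ge n (by omega)
  have hx : 110 / ε + 12 ≤ (n : ℝ) := le_trans hN hnN
  have hx3 : (0 : ℝ) ≤ (n : ℝ) ^ 3 := by positivity
  have h2 : (11 / 16 + ε) * (((n : ℝ) ^ 4 - 6 * (n : ℝ) ^ 3) / 24) ≤
      (11 / 16 + ε) * ((n.choose 4 : ℕ) : ℝ) := mul_le_mul_of_nonneg_left h1 (by linarith)
  have h3 : 110 + 12 * ε ≤ ε * (n : ℝ) := by
    have h4 := mul_le_mul_of_nonneg_left hx hε.le
    have e : ε * (110 / ε + 12) = 110 + 12 * ε := by field_simp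
    linarith
  have h5 : (110 + 12 * ε) * (n : ℝ) ^ 3 ≤ ε * (n : ℝ) * (n : ℝ) ^ 3 :=
    mul_le_mul_of_nonneg_right h3 hx3
  have e1 : ε * (n : ℝ) * (n : ℝ) ^ 3 = ε * (n : ℝ) ^ 4 := by ring
  have h6 : 0 ≤ ε * (n : ℝ) ^ 3 := by positivity
  have e2 : (11 / 16 + ε) * (((n : ℝ) ^ 4 - 6 * (n : ℝ) ^ 3) / 24) = 11 / 384 * (n : ℝ) ^ 4 +
      ε * (n : ℝ) ^ 4 / 24 - 11 / 64 * (n : ℝ) ^ 3 - ε * (n : ℝ) ^ 3 / 4 := by ring
  rw [e2] at h2
  rw [e1] at h5
  linarith

end Pool.Agent.Lib.MP_afdd4d_co.MC
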