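import Pool.Agent.Lib.MP_afdd4d_co.MC.Red
import Pool.Agent.Lib.MP_afdd4d_co.K8.Pairs
import Pool.Agent.Lib.MP_afdd4d_co.K8.F6Psd
import Pool.Agent.Lib.MP_afdd4d_co.Check

/-!
# Kernels with four roots for coloured 4-graphs

The type of four roots consists of their colours and of the bit of the quadruple. The code of a further
vertex consists of the bits of the four quadruples with three of the roots, and of its colour. The
kernel is the entry of one of six matrices, after an exchange of the positions of the roots.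
-/

namespace Pool.Agent.Lib.MP_afdd4d_co.MC

open Finset K8

/-- The number of the matrix of a type. -/
def clsL : List ℕ := [0, 2, 2, 4, 2, 4, 4, 2, 2, 4, 4, 2, 4, 2, 2, 0,
  1, 3, 3, 5, 3, 5, 5, 3, 3, 5, 5, 3, 5, 3, 3, 1]

/-- The positions of the roots in the normal order. -/
def ordL : List (List ℕ) := [
  [0, 1, 2, 3, 4], [1, 2, 3, 0, 4], [0, 2, 3, 1, 4], [2, 3, 0, 1, 4], [0, 1, 3, 2, 4],
  [1, 3, 0, 2, 4], [0, 3, 1, 2, 4], [0, 1, 2, 3, 4], [0, 1, 2, 3, 4], [1, 2, 0, 3, 4],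
  [0, 2, 1, 3, 4], [0, 1, 3, 2, 4], [0, 1, 2, 3, 4], [0, 2, 3, 1, 4], [1, 2, 3, 0, 4],
  [0, 1, 2, 3, 4], [0, 1, 2, 3, 4], [1, 2, 3, 0, 4], [0, 2, 3, 1, 4], [2, 3, 0, 1, 4],
  [0, 1, 3, 2, 4], [1, 3, 0, 2, 4], [0, 3, 1, 2, 4], [0, 1, 2, 3, 4], [0, 1, 2, 3, 4],
  [1, 2, 0, 3, 4], [0, 2, 1, 3, 4], [0, 1, 3, 2, 4], [0, 1, 2, 3, 4], [0, 2, 3, 1, 4],
  [1, 2, 3, 0, 4], [0, 1, 2, 3, 4]]

/-- Whether the colours are exchanged. -/
def xcL : List ℕ := [0, 0, 0, 0, 0, 0, 0, 16, 0, 0, 0, 16, 0, 16, 16, 16,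
  0, 0, 0, 0, 0, 0, 0, 16, 0, 0, 0, 16, 0, 16, 16, 16]

/-- The code with the bits of the numbers `l` of the code `a`. -/
def btG (a : ℕ) (l : List ℕ) : ℕ :=
  @List.rec ℕ (fun _ => ℕ) 0
    (fun p _ ih => Nat.add (Nat.mod (Nat.shiftRight a p) 2) (Nat.mul 2 ih)) l

theorem shr_mod (a p : ℕ) : Nat.mod (Nat.shiftRight a p) 2 = (a.testBit p).toNat := by
  have e1 : Nat.mod (Nat.shiftRight a p) 2 = (a >>> p) % 2 := rfl
  rw [e1, Nat.toNat_testBit, Nat.shiftRight_eq_div_pow]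

theorem btG_eq (a : ℕ) (l : List ℕ) : btG a l = bt a.testBit l := by
  induction l with
  | nil => rfl
  | cons p l ih =>
    have e1 : btG a (p :: l) = Nat.mod (Nat.shiftRight a p) 2 + 2 * btG a l := rfl
    rw [e1, bt, ih, shr_mod]

theorem btG_lt (a : ℕ) (l : List ℕ) : btG a l < 2 ^ l.length := by
  rw [btG_eq]
  exact bt_lt _ _

/-- The code in the normal order. -/
def nuG (T a : ℕ) : ℕ := btG (Nat.xor a (nthG 0 xcL T)) (nthG [] ordL T)

/-- The rows of the matrix of a type. -/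
def rwG (D : List (List ℕ)) (T : ℕ) : List ℕ := nthG [] D (nthG 0 clsL T)

/-- The entry with the offset. -/
def kvN (D : List (List ℕ)) (T a b : ℕ) : ℕ := lnG 32 (nthG 0 (rwG D T) (nuG T a)) (nuG T b)

/-- The entry. -/
def kv (D : List (List ℕ)) (T a b : ℕ) : ℤ := me 32 65536 (rwG D T) (nuG T a) (nuG T b)

theorem kv_eq (D : List (List ℕ)) (T a b : ℕ) : kv D T a b = (kvN D T a b : ℤ) - 65536 := by
  unfold kv me kvN
  rw [lnG_eq, nthG_eq]
  rfl

theorem ordL_len : ∀ T < 32, (nthG [] ordL T).length = 5 := by decide +kernel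

theorem nuG_lt (T a : ℕ) (hT : T < 32) : nuG T a < 32 := by
  have h := btG_lt (Nat.xor a (nthG 0 xcL T)) (nthG [] ordL T)
  rw [ordL_len T hT] at h
  exact h

/-! ### Exchanges of the roots -/

/-- The exchanges of two neighbouring bits. -/
def swL : List (List ℕ) := [[1, 0, 2, 3, 4], [0, 2, 1, 3, 4], [0, 1, 3, 2, 4]]

/-- The exchange of the bits `i` and `i + 1`. -/
def swb (i a : ℕ) : ℕ := btG a (nthG [] swL i)

/-- The invariance of the entries. -/
def symK (D : List (List ℕ)) (i : ℕ) : Bool :=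
  allN (fun T => allN (fun a => allN (fun b =>
    Nat.beq (kvN D (swb i T) (swb i a) (swb i b)) (kvN D T a b)) 32) 32) 32

theorem symK_spec (D : List (List ℕ)) (i : ℕ) (h : symK D i = true) (T a b : ℕ) (hT : T < 32)
    (ha : a < 32) (hb : b < 32) : kv D (swb i T) (swb i a) (swb i b) = kv D T a b := by
  have h1 := allN_spec _ _ (allN_spec _ _ (allN_spec _ _ h T hT) a ha) b hb
  rw [kv_eq, kv_eq, Nat.eq_of_beq_eq_true h1]

/-- The five bits. -/
def r5 : List ℕ := [0, 1, 2, 3, 4]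

/-- The action of the exchange on the five bits. -/
def ex5 (i r : ℕ) : ℕ := nthG 0 (nthG [] swL i) r

theorem swL_eq : ∀ i < 3, nthG [] swL i = r5.map (ex5 i) := by decide +kernel

theorem bt_r5_lt (F : ℕ → Bool) : bt F r5 < 32 := bt_lt F r5

theorem testBit_bt5 (F : ℕ → Bool) (r : ℕ) (hr : r < 5) : (bt F r5).testBit r = F r := by
  have e : bt F r5 = idx 5 F := by rw [idx_eq_bt]; rfl
  rw [e, testBit_idx]
  simp [hr]

theorem ex5_lt : ∀ i < 3, ∀ r < 5, ex5 i r < 5 := by decide +kernel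

theorem swb_bt (F : ℕ → Bool) (i : ℕ) (hi : i < 3) : swb i (bt F r5) = bt (F ∘ ex5 i) r5 := by
  unfold swb
  rw [btG_eq, swL_eq i hi, bt_map]
  apply bt_congr
  intro r hr
  have hr5 : r < 5 := by
    have : ∀ r ∈ r5, r < 5 := by decide
    exact this r hr
  rw [Function.comp_apply, Function.comp_apply, testBit_bt5 _ _ (ex5_lt i hi r hr5)]

section ker
variable {n : ℕ} (D : List (List ℕ)) (H : Finset (Finset (Fin n))) (χ : Fin n → Bool)

/-- The bits of the type. -/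
def tyb (s : Fin 4 → Fin n) (r : ℕ) : Bool :=
  if r < 4 then χ (s (Fin.ofNat 4 r)) else zb H s univ

/-- The bits of the code of a vertex. -/
def cdb (s : Fin 4 → Fin n) (u : Fin n) (r : ℕ) : Bool :=
  if r < 4 then zb H (Function.update s (Fin.ofNat 4 r) u) univ else χ u

/-- The kernel. -/
def kp (s : Fin 4 → Fin n) (u w : Fin n) : ℤ :=
  kv D (bt (tyb H χ s) r5) (bt (cdb H χ s u) r5) (bt (cdb H χ s w) r5)

/-- The exchange of the roots `i` and `i + 1`. -/
def e4 (i : Fin 3) : Equiv.Perm (Fin 4) := Equiv.swap i.castSucc i.succ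

theorem e4_ex5 : ∀ i : Fin 3, ∀ r < 5, (r < 4 → e4 i (Fin.ofNat 4 r) = Fin.ofNat 4 (ex5 i r) ∧
    ex5 i r < 4) ∧ (¬ r < 4 → ¬ ex5 i r < 4) := by decide +kernel

theorem image_perm {k : ℕ} (σ : Equiv.Perm (Fin k)) : (univ : Finset (Fin k)).image σ = univ :=
  Finset.image_univ_equiv σ

theorem zb_perm {k : ℕ} (s : Fin k → Fin n) (σ : Equiv.Perm (Fin k)) :
    zb H (s ∘ σ) univ = zb H s univ := by
  rw [zb_comp, image_perm]

theorem update_perm {k : ℕ} (s : Fin k → Fin n) (σ : Equiv.Perm (Fin k)) (r : Fin k) (u : Fin n) :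
    Function.update (s ∘ σ) r u = Function.update s (σ r) u ∘ σ := by
  funext j
  by_cases h : j = r
  · rw [h, Function.update_self, Function.comp_apply, Function.update_self]
  · rw [Function.update_of_ne h, Function.comp_apply, Function.comp_apply,
      Function.update_of_ne fun h' => h (σ.injective h')]

theorem tyb_ex (s : Fin 4 → Fin n) (i : Fin 3) (r : ℕ) (hr : r < 5) :
    tyb H χ (s ∘ e4 i) r = (tyb H χ s ∘ ex5 i) r := by
  obtain ⟨h1, h2⟩ := e4_ex5 i r hr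
  rw [Function.comp_apply]
  unfold tyb
  by_cases h : r < 4
  · rw [if_pos h, if_pos (h1 h).2, Function.comp_apply, (h1 h).1]
  · rw [if_neg h, if_neg (h2 h), zb_perm]

theorem cdb_ex (s : Fin 4 → Fin n) (u : Fin n) (i : Fin 3) (r : ℕ) (hr : r < 5) :
    cdb H χ (s ∘ e4 i) u r = (cdb H χ s u ∘ ex5 i) r := by
  obtain ⟨h1, h2⟩ := e4_ex5 i r hr
  rw [Function.comp_apply]
  unfold cdb
  by_cases h : r < 4
  · rw [if_pos h, if_pos (h1 h).2, update_perm, zb_perm, (h1 h).1]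
  · rw [if_neg h, if_neg (h2 h)]

theorem bt5_congr (F G : ℕ → Bool) (h : ∀ r < 5, F r = G r) : bt F r5 = bt G r5 := by
  apply bt_congr
  intro r hr
  have : ∀ r ∈ r5, r < 5 := by decide
  exact h r (this r hr)

theorem kp_swap (hD : ∀ i < 3, symK D i = true) (i : Fin 3) (s : Fin 4 → Fin n) (u w : Fin n) :
    kp D H χ (s ∘ e4 i) u w = kp D H χ s u w := by
  unfold kp
  rw [bt5_congr _ _ (tyb_ex H χ s i), bt5_congr _ _ (cdb_ex H χ s u i),
    bt5_congr _ _ (cdb_ex H χ s w i), ← swb_bt _ _ i.isLt, ← swb_bt _ _ i.isLt,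
    ← swb_bt _ _ i.isLt]
  exact symK_spec D i (hD i i.isLt) _ _ _ (bt_r5_lt _) (bt_r5_lt _) (bt_r5_lt _)

theorem kp_perm (hD : ∀ i < 3, symK D i = true) (σ : Equiv.Perm (Fin 4)) :
    ∀ (s : Fin 4 → Fin n) (u w : Fin n), kp D H χ (s ∘ σ) u w = kp D H χ s u w := by
  have hσ : σ ∈ Submonoid.closure (Set.range fun i : Fin 3 => Equiv.swap i.castSucc i.succ) := by
    rw [Equiv.Perm.mclosure_swap_castSucc_succ]
    trivial
  induction hσ using Submonoid.closure_induction with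
  | mem x hx =>
    obtain ⟨i, rfl⟩ := hx
    intro s u w
    exact kp_swap D H χ hD i s u w
  | one => intro s u w; rfl
  | mul x y _ _ hx hy =>
    intro s u w
    have e : s ∘ (x * y : Equiv.Perm (Fin 4)) = (s ∘ x) ∘ y := rfl
    rw [e, hy, hx]

end ker

/-! ### Positivity -/

theorem sum_sum_qf {V : Type*} [Fintype V] (N : ℕ) (m : ℕ → ℕ → ℤ) (f : V → ℕ)
    (hf : ∀ u, f u < N) : ∑ u, ∑ w, ((m (f u) (f w) : ℤ) : ℝ) =
      K8.qf N m fun i => ∑ u, if f u = i then (1 : ℝ) else 0 := by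
  unfold K8.qf
  have h1 : ∀ i ∈ range N, ∀ j ∈ range N, (m i j : ℝ) *
      ((∑ u, if f u = i then (1 : ℝ) else 0) * ∑ u, if f u = j then (1 : ℝ) else 0) =
      ∑ u, ∑ w, if f u = i then (if f w = j then (m i j : ℝ) else 0) else 0 := by
    intro i _ j _
    rw [Finset.sum_mul_sum, Finset.mul_sum]
    refine Finset.sum_congr rfl fun u _ => ?_
    rw [Finset.mul_sum]
    refine Finset.sum_congr rfl fun w _ => ?_
    split_ifs <;> simp
  rw [Finset.sum_congr rfl fun i hi => Finset.sum_congr rfl fun j hj => h1 i hi j hj]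
  have h2 : ∀ i ∈ range N, ∑ j ∈ range N, ∑ u, ∑ w,
      (if f u = i then (if f w = j then (m i j : ℝ) else 0) else 0) =
      ∑ u, ∑ w, if f u = i then (m i (f w) : ℝ) else 0 := by
    intro i _
    rw [Finset.sum_comm]
    refine Finset.sum_congr rfl fun u _ => ?_
    rw [Finset.sum_comm]
    refine Finset.sum_congr rfl fun w _ => ?_
    split_ifs with h
    · rw [Finset.sum_ite_eq (range N) (f w) fun j => (m i j : ℝ),
        if_pos (Finset.mem_range.mpr (hf w))]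
    · exact Finset.sum_const_zero
  rw [Finset.sum_congr rfl h2]
  symm
  rw [Finset.sum_comm]
  refine Finset.sum_congr rfl fun u _ => ?_
  rw [Finset.sum_comm]
  refine Finset.sum_congr rfl fun w _ => ?_
  rw [Finset.sum_ite_eq (range N) (f u) fun i => (m i (f w) : ℝ),
    if_pos (Finset.mem_range.mpr (hf u))]

/-- The conditions on the matrices. -/
structure OK (D : List (List ℕ)) : Prop where
  sym : ∀ i < 3, symK D i = true
  psd : ∀ c < 6, ∀ a : ℕ → ℝ, 0 ≤ K8.qf 32 (me 32 65536 (nthG [] D c)) a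
  bd : ∀ T < 32, ∀ a < 32, ∀ b < 32, kvN D T a b ≤ 131072

theorem clsL_lt : ∀ T < 32, nthG 0 clsL T < 6 := by decide +kernel

section pos
variable {n : ℕ} (D : List (List ℕ)) (H : Finset (Finset (Fin n))) (χ : Fin n → Bool)

theorem kp_nonneg (hD : OK D) (s : Fin 4 → Fin n) :
    0 ≤ ∑ u, ∑ w, ((kp D H χ s u w : ℤ) : ℝ) := by
  have hT := bt_r5_lt (tyb H χ s)
  have h := sum_sum_qf 32 (me 32 65536 (rwG D (bt (tyb H χ s) r5)))
    (fun u => nuG (bt (tyb H χ s) r5) (bt (cdb H χ s u) r5)) fun u => nuG_lt _ _ hT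
  refine le_of_le_of_eq (hD.psd _ (clsL_lt _ hT) _) h.symm

theorem kp_le (hD : OK D) (s : Fin 4 → Fin n) (u w : Fin n) :
    ((kp D H χ s u w : ℤ) : ℝ) ≤ 65536 := by
  have h := hD.bd _ (bt_r5_lt (tyb H χ s)) _ (bt_r5_lt (cdb H χ s u)) _
    (bt_r5_lt (cdb H χ s w))
  have h1 : kp D H χ s u w ≤ 65536 := by
    unfold kp
    rw [kv_eq]
    omega
  exact_mod_cast h1

theorem cast_PS' (t : Fin (4 + 1 + 1) → Fin n) :
    PS (fun s u w => ((kp D H χ s u w : ℤ) : ℝ)) t = ((PS (kp D H χ) t : ℤ) : ℝ) := by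
  unfold PS
  push_cast
  rfl

/-- The sum of the kernels over all windows. -/
theorem PS_sum_ge (hD : OK D) :
    -(30 * 65536 * ((n : ℝ) ^ 6 - (n.descFactorial 6 : ℝ))) ≤
      ∑ t ∈ inj (Fin n) 6, ((PS (k := 4) (kp D H χ) t : ℤ) : ℝ) := by
  have h := PS_inj_ge (V := Fin n) (k := 4) 0 (fun s u w => ((kp D H χ s u w : ℤ) : ℝ)) 65536
    (kp_nonneg D H χ hD) (kp_le D H χ hD) id Function.injective_id
  rw [Fintype.card_fin] at h
  have e : ∀ t : Fin 6 → Fin n, PS (fun s u w => ((kp D H χ s u w : ℤ) : ℝ)) (t ∘ id) =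
      ((PS (k := 4) (kp D H χ) t : ℤ) : ℝ) := fun t => cast_PS' D H χ t
  have h2 := Finset.sum_congr (s₁ := inj (Fin n) 6) rfl fun t _ => e t
  refine le_trans ?_ (le_of_le_of_eq h h2)
  apply le_of_eq
  norm_num

end pos

end Pool.Agent.Lib.MP_afdd4d_co.MC
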