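import Pool.Agent.Lib.MP_afdd4d_co.MC.Sem

/-!
# The inequality for all windows
-/

namespace Pool.Agent.Lib.MP_afdd4d_co.MC

open Finset K8

theorem chA_spec (D : List (List ℕ)) (k : ℕ) (h : chA D k = true) : ∀ C ∈ rX k,
    rowA D (rB k) C = true := by
  have key : ∀ l : List ℕ, (@List.rec ℕ (fun _ => Bool) true (fun C _ ih =>
      @Bool.rec (fun _ => Bool) false ih (rowA D (rB k) C)) l) = true →
      ∀ C ∈ l, rowA D (rB k) C = true := by
    intro l
    induction l with
    | nil => intro _ C hC; exact absurd hC (by simp)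
    | cons a l ih =>
      intro h1 C hC
      have h2 : @Bool.rec (fun _ => Bool) false (@List.rec ℕ (fun _ => Bool) true (fun C _ ih =>
        @Bool.rec (fun _ => Bool) false ih (rowA D (rB k) C)) l) (rowA D (rB k) a) = true := h1
      rw [bool_rec_and, Bool.and_eq_true] at h2
      rw [List.mem_cons] at hC
      rcases hC with rfl | hC
      · exact h2.1
      · exact ih h2.2 C hC
  exact key (rX k) h

section loc
variable {n : ℕ} (D : List (List ℕ)) (H : Finset (Finset (Fin n))) (χ : Fin n → Bool)

open Classical in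
/-- The indicator of the windows that are not as in Giraud's construction. -/
noncomputable def ngS (S : Finset (Fin n)) : ℕ := if GSet H χ S then 0 else 1

/-- The inequality for a window. -/
def LocA (t : Fin 6 → Fin n) : Prop :=
  PS (k := 4) (kp D H χ) t + 30720 * (kT H t : ℤ) + 1056 * (ngS H χ (univ.image t) : ℤ) ≤
    270720 + 21504 * (kT (monoF H χ) t : ℤ) + 6144 * (abT χ t : ℤ)

theorem locA (hD : OK D) (hrow : ∀ k < 160, chA D k = true)
    (hfree : ∀ S : Finset (Fin n), S.card = 5 → ∃ e ∈ S.powersetCard 4, e ∉ H) :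
    ∀ t : Fin 6 → Fin n, Function.Injective t → LocA D H χ t := by
  refine w6_reduce χ H (LocA D H χ) ?_ ?_
  · intro t σ h
    unfold LocA at h ⊢
    have h1 : PS (k := 4) (kp D H χ) (t ∘ σ) = PS (k := 4) (kp D H χ) t :=
      PS_perm (kp D H χ) (fun τ s u w => kp_perm D H χ hD.sym τ s u w) σ t
    rwa [h1, kT_perm, kT_perm, abT_perm, image_comp_perm] at h
  · intro k hk C hC t ht hx hj
    have hb := rB_lt k hk
    have h1 := chA_spec D k (hrow k hk) C hC
    have h2 := base_k5 H t ht C hj hfree
    unfold rowA at h1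
    rw [h2] at h1
    have h3 : lhA D (rB k) C ≤ rhA (rB k) C := Nat.le_of_ble_eq_true h1
    have h4 := PS_evN D H χ t (C + 32768 * (2 ^ rB k - 1)) fun r hr =>
      base_wb H χ t (rB k) C hx hj r hr
    have h5 := base_kT H t C hj
    have h6 := base_mono H χ t ht (rB k) C hb hx hj
    have h7 := base_ab χ t (rB k) hb hx
    have h8 : (ngS H χ (univ.image t)) * 1056 ≤
        @Bool.rec (fun _ => ℕ) 1056 0 (gwG (rB k) C) := by
      unfold ngS
      by_cases h9 : GSet H χ (univ.image t)
      · rw [if_pos h9]; simp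
      · have h10 : gwG (rB k) C = false := by
          rw [Bool.eq_false_iff]
          intro h
          exact h9 (base_GSet H χ t ht (rB k) C hb hx hj h)
        rw [if_neg h9, h10]
    have h9 : lhA D (rB k) C = evN D (C + 32768 * (2 ^ rB k - 1)) + 30720 * popG C +
      @Bool.rec (fun _ => ℕ) 1056 0 (gwG (rB k) C) := rfl
    have h10 : rhA (rB k) C = 2236800 + 21504 * popG (C &&& nthG 0 mmL (rB k)) +
      6144 * (rB k * (6 - rB k)) := rfl
    unfold LocA
    rw [h4, h5, h6, h7]
    rw [h9, h10] at h3
    zify at h3 h8 ⊢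
    push_cast at h3 h8 ⊢
    linarith

end loc

end Pool.Agent.Lib.MP_afdd4d_co.MC
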