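import Pool.Agent.Lib.MP_afdd4d_co.MC.Stab

/-!
# From the global inequality to densities
-/

namespace Pool.Agent.Lib.MP_afdd4d_co.MC

open Finset K8

theorem desc6 (k : ℕ) : (((k + 6).descFactorial 6 : ℕ) : ℝ) =
    ((k : ℝ) + 1) * (k + 2) * (k + 3) * (k + 4) * (k + 5) * (k + 6) := by
  have h : (k + 6).descFactorial 6 = (k + 1) * ((k + 2) * ((k + 3) * ((k + 4) * ((k + 5) *
      (k + 6))))) := by
    simp only [Nat.descFactorial_succ, Nat.descFactorial_zero, mul_one]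
    have e1 : k + 6 - 5 = k + 1 := by omega
    have e2 : k + 6 - 4 = k + 2 := by omega
    have e3 : k + 6 - 3 = k + 3 := by omega
    have e4 : k + 6 - 2 = k + 4 := by omega
    have e5 : k + 6 - 1 = k + 5 := by omega
    rw [e1, e2, e3, e4, e5, Nat.sub_zero]
  rw [h]
  push_cast
  ring

theorem desc6_le (n : ℕ) : ((n.descFactorial 6 : ℕ) : ℝ) ≤ (n : ℝ) ^ 6 := by
  exact_mod_cast Nat.descFactorial_le_pow n 6

theorem desc6_ge (n : ℕ) (hn : 6 ≤ n) : (n : ℝ) ^ 6 - 15 * (n : ℝ) ^ 5 ≤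
    ((n.descFactorial 6 : ℕ) : ℝ) := by
  obtain ⟨k, rfl⟩ := Nat.exists_eq_add_of_le hn
  rw [show 6 + k = k + 6 by ring, desc6]
  push_cast
  have hk : (0 : ℝ) ≤ k := Nat.cast_nonneg k
  have e : ((k : ℝ) + 1) * (k + 2) * (k + 3) * (k + 4) * (k + 5) * (k + 6) -
      (((k : ℝ) + 6) ^ 6 - 15 * ((k : ℝ) + 6) ^ 5) =
      85 * (k : ℝ) ^ 4 + 1815 * (k : ℝ) ^ 3 + 14584 * (k : ℝ) ^ 2 + 52308 * k + 70704 := by
    ring
  have h1 : 0 ≤ 85 * (k : ℝ) ^ 4 + 1815 * (k : ℝ) ^ 3 + 14584 * (k : ℝ) ^ 2 + 52308 * k + 70704 := by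
    positivity
  linarith

/-- The inequality with simple error terms. -/
theorem simple_ineq (x h m p g P : ℝ) (hx : 9 ≤ x) (hh : 0 ≤ h) (hh1 : h ≤ x ^ 4 / 24) (hm : 0 ≤ m)
    (hp : 0 ≤ p) (hP1 : P ≤ x ^ 6) (hP2 : x ^ 6 - 15 * x ^ 5 ≤ P)
    (hI : -(30 * 65536 * (x ^ 6 - P)) + 30720 * (360 * ((x - 5) * (x - 4) * h)) + 1056 * g ≤
      270720 * P + 21504 * (360 * ((x - 5) * (x - 4) * m)) +
        6144 * (30 * ((x - 5) * (x - 4) * ((x - 3) * (x - 2)) * p))) :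
    11059200 * h * x ^ 2 + 1056 * g ≤ 270720 * x ^ 6 + 7741440 * m * x ^ 2 + 184320 * x ^ 4 * p +
      33700000 * x ^ 5 := by
  have hx0 : 0 ≤ x := by linarith
  have e1 : (x - 5) * (x - 4) ≤ x ^ 2 := by nlinarith
  have e0 : 0 ≤ (x - 5) * (x - 4) := mul_nonneg (by linarith) (by linarith)
  have e2 : (x - 3) * (x - 2) ≤ x ^ 2 := by nlinarith
  have e20 : 0 ≤ (x - 3) * (x - 2) := mul_nonneg (by linarith) (by linarith)
  have e3 : x ^ 2 - 9 * x ≤ (x - 5) * (x - 4) := by nlinarith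
  have e4 : (x - 5) * (x - 4) * ((x - 3) * (x - 2)) ≤ x ^ 4 := by
    have h1 := mul_le_mul e1 e2 e20 (by positivity)
    calc _ ≤ x ^ 2 * x ^ 2 := h1
      _ = x ^ 4 := by ring
  have e5 : (x - 5) * (x - 4) * ((x - 3) * (x - 2)) * p ≤ x ^ 4 * p :=
    mul_le_mul_of_nonneg_right e4 hp
  have e6 : (x - 5) * (x - 4) * m ≤ x ^ 2 * m := mul_le_mul_of_nonneg_right e1 hm
  have e7 : (x ^ 2 - 9 * x) * h ≤ (x - 5) * (x - 4) * h := mul_le_mul_of_nonneg_right e3 hh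
  have e8 : 9 * x * h ≤ 9 * x * (x ^ 4 / 24) := mul_le_mul_of_nonneg_left hh1 (by positivity)
  have e9 : 9 * x * (x ^ 4 / 24) = 9 / 24 * x ^ 5 := by ring
  have e10 : (x ^ 2 - 9 * x) * h = h * x ^ 2 - 9 * x * h := by ring
  have e11 : 0 ≤ x ^ 5 := by positivity
  linarith

/-- The two cases. -/
theorem final_ineq (x h m a b g s : ℝ) (hx : 9 ≤ x) (ha : 0 ≤ a) (hb : 0 ≤ b) (hab : a + b = x)
    (hs0 : 0 ≤ s) (hs : s ≤ x ^ 4 / 24) (hg0 : 0 ≤ g) (hg : 24 * (a * b) * (s - 2 * x ^ 3) ≤ g)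
    (hI : 11059200 * h * x ^ 2 + 1056 * g ≤ 270720 * x ^ 6 + 7741440 * m * x ^ 2 +
      184320 * x ^ 4 * (a * b) + 33700000 * x ^ 5) :
    h + s / 2000 ≤ 11 / 384 * x ^ 4 + 7 / 10 * m + 4 * x ^ 3 := by
  have hx0 : 0 < x := by linarith
  have hx2 : 0 < x ^ 2 := by positivity
  have hab4 : a * b ≤ x ^ 2 / 4 := by
    rw [← hab]
    nlinarith [sq_nonneg (a - b)]
  have hab0 : 0 ≤ a * b := mul_nonneg ha hb
  have key : 11059200 * (h + s / 2000) * x ^ 2 ≤ 316800 * x ^ 6 + 7741440 * m * x ^ 2 +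
      44236800 * x ^ 5 := by
    have hx5 : 0 ≤ x ^ 5 := by positivity
    have hx4 : 0 ≤ x ^ 4 := by positivity
    have e1 : 184320 * x ^ 4 * (a * b) ≤ 46080 * x ^ 6 := by
      have h1 := mul_le_mul_of_nonneg_left hab4 (show 0 ≤ 184320 * x ^ 4 by positivity)
      calc _ ≤ 184320 * x ^ 4 * (x ^ 2 / 4) := h1
        _ = 46080 * x ^ 6 := by ring
    by_cases hc : 22 / 100 * x ^ 2 ≤ a * b
    · have h2 : 22 / 100 * x ^ 2 * s ≤ a * b * s := mul_le_mul_of_nonneg_right hc hs0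
      have h3 : a * b * x ^ 3 ≤ x ^ 2 / 4 * x ^ 3 :=
        mul_le_mul_of_nonneg_right hab4 (by positivity)
      have e2 : x ^ 2 / 4 * x ^ 3 = x ^ 5 / 4 := by ring
      have e3 : 24 * (a * b) * (s - 2 * x ^ 3) = 24 * (a * b * s) - 48 * (a * b * x ^ 3) := by ring
      have e4 : 11059200 * (h + s / 2000) * x ^ 2 = 11059200 * h * x ^ 2 +
        5529.6 * (x ^ 2 * s) := by ring
      have e5 : 22 / 100 * x ^ 2 * s = 22 / 100 * (x ^ 2 * s) := by ring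
      have e6 : 0 ≤ x ^ 2 * s := by positivity
      rw [e4]
      rw [e3] at hg
      linarith
    · rw [not_le] at hc
      have h2 : 184320 * x ^ 4 * (a * b) ≤ 184320 * x ^ 4 * (22 / 100 * x ^ 2) :=
        mul_le_mul_of_nonneg_left hc.le (by positivity)
      have e2 : 184320 * x ^ 4 * (22 / 100 * x ^ 2) = 40550.4 * x ^ 6 := by ring
      have h3 : x ^ 2 * s ≤ x ^ 2 * (x ^ 4 / 24) := mul_le_mul_of_nonneg_left hs (by positivity)
      have e3 : x ^ 2 * (x ^ 4 / 24) = x ^ 6 / 24 := by ring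
      have e4 : 11059200 * (h + s / 2000) * x ^ 2 = 11059200 * h * x ^ 2 +
        5529.6 * (x ^ 2 * s) := by ring
      have e6 : 0 ≤ x ^ 6 := by positivity
      rw [e4]
      linarith
  have e : (11059200 * x ^ 2) * (h + s / 2000) ≤ (11059200 * x ^ 2) *
      (11 / 384 * x ^ 4 + 7 / 10 * m + 4 * x ^ 3) := by
    calc _ = 11059200 * (h + s / 2000) * x ^ 2 := by ring
      _ ≤ _ := key
      _ = _ := by ring
  exact le_of_mul_le_mul_left e (by positivity)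

theorem choose4_ge (n : ℕ) (hn : 6 ≤ n) :
    ((n : ℝ) ^ 4 - 6 * (n : ℝ) ^ 3) / 24 ≤ ((n.choose 4 : ℕ) : ℝ) := by
  obtain ⟨k, rfl⟩ := Nat.exists_eq_add_of_le hn
  have h6 : (((6 + k).descFactorial 4 : ℕ) : ℝ) = 24 * (((6 + k).choose 4 : ℕ) : ℝ) := by
    rw [Nat.descFactorial_eq_factorial_mul_choose]
    push_cast
    norm_num [Nat.factorial]
  have h : (6 + k).descFactorial 4 = (k + 3) * ((k + 4) * ((k + 5) * (k + 6))) := by
    simp only [Nat.descFactorial_succ, Nat.descFactorial_zero, mul_one]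
    have e3 : 6 + k - 3 = k + 3 := by omega
    have e4 : 6 + k - 2 = k + 4 := by omega
    have e5 : 6 + k - 1 = k + 5 := by omega
    have e6 : 6 + k - 0 = k + 6 := by omega
    rw [e3, e4, e5, e6]
  rw [h] at h6
  push_cast at h6 ⊢
  have hk : (0 : ℝ) ≤ k := Nat.cast_nonneg k
  nlinarith [h6, mul_nonneg hk hk, hk]

end Pool.Agent.Lib.MP_afdd4d_co.MC
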