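import Pool.Agent.Lib.MP_afdd4d_co.MC.Win

/-!
# The inequality for the representatives
-/

namespace Pool.Agent.Lib.MP_afdd4d_co.MC

open Finset K8

/-- The quadruples without the vertex `v`. -/
def fvL : List ℕ := [26896, 21640, 12868, 3618, 481, 31]

/-- The monochromatic quadruples, if the first `b` vertices have the second colour. -/
def mmL : List ℕ := [32767, 26896, 16384, 0, 1, 31, 32767]

/-- The quadruples with an odd number of vertices of each colour. -/
def omL : List ℕ := [0, 5871, 15768, 28707, 510, 32736, 0]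

/-- Whether some five vertices span all quadruples. -/
def k5G (C : ℕ) : Bool := @Nat.rec (fun _ => Bool) false
  (fun v ih => @Bool.rec (fun _ => Bool) ih true
    (Nat.beq (Nat.land C (nthG 0 fvL v)) (nthG 0 fvL v))) 6

/-- The number of the quadruples. -/
def popG (C : ℕ) : ℕ := snG (fun r => Nat.mod (Nat.shiftRight C r) 2) 15

/-- Whether all sets of five vertices contain an even number of the quadruples. -/
def evG (C : ℕ) : Bool := allN (fun v => Nat.beq (Nat.mod (popG (Nat.land C (nthG 0 fvL v))) 2) 0) 6

/-- Whether the window is as in Giraud's construction. -/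
def gwG (b C : ℕ) : Bool := @Bool.rec (fun _ => Bool) false
  (@Bool.rec (fun _ => Bool) false (evG C)
    (Nat.beq (Nat.land C (nthG 0 omL b)) (nthG 0 omL b)))
  (Nat.beq (Nat.land C (nthG 0 mmL b)) 0)

/-- The sum of the kernels and the terms on the left. -/
def lhA (D : List (List ℕ)) (b C : ℕ) : ℕ :=
  Nat.add (Nat.add (evN D (Nat.add C (Nat.mul 32768 (Nat.sub (Nat.pow 2 b) 1))))
    (Nat.mul 30720 (popG C))) (@Bool.rec (fun _ => ℕ) 1056 0 (gwG b C))

/-- The terms on the right. -/
def rhA (b C : ℕ) : ℕ :=
  Nat.add (Nat.add 2236800 (Nat.mul 21504 (popG (Nat.land C (nthG 0 mmL b)))))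
    (Nat.mul 6144 (Nat.mul b (Nat.sub 6 b)))

/-- The inequality for a representative. -/
def rowA (D : List (List ℕ)) (b C : ℕ) : Bool :=
  @Bool.rec (fun _ => Bool) (Nat.ble (lhA D b C) (rhA b C)) true (k5G C)

/-- The inequalities for a chunk. -/
def chA (D : List (List ℕ)) (k : ℕ) : Bool :=
  @List.rec ℕ (fun _ => Bool) true (fun C _ ih => @Bool.rec (fun _ => Bool) false ih
    (rowA D (rB k) C)) (rX k)

end Pool.Agent.Lib.MP_afdd4d_co.MC
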