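import Pool.Agent.Lib.MP_afdd4d_co.MC.Row
import Pool.Agent.Lib.MP_afdd4d_co.K8.LowerEven

/-!
# The statistics of a window
-/

namespace Pool.Agent.Lib.MP_afdd4d_co.MC

open Finset K8

/-! ### Bits -/

theorem popG_eq (C : ℕ) : popG C = ∑ r ∈ range 15, (C.testBit r).toNat := by
  unfold popG
  rw [snG_eq]
  exact Finset.sum_congr rfl fun r _ => shr_mod C r

theorem k5G_spec (C : ℕ) (h : k5G C = true) : ∃ v < 6, C &&& nthG 0 fvL v = nthG 0 fvL v := by
  have key : ∀ N : ℕ, (@Nat.rec (fun _ => Bool) false (fun v ih => @Bool.rec (fun _ => Bool) ih true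
      (Nat.beq (Nat.land C (nthG 0 fvL v)) (nthG 0 fvL v))) N) = true →
      ∃ v < N, C &&& nthG 0 fvL v = nthG 0 fvL v := by
    intro N
    induction N with
    | zero => intro h; exact Bool.noConfusion h
    | succ N ih =>
      intro h
      by_cases h1 : Nat.beq (Nat.land C (nthG 0 fvL N)) (nthG 0 fvL N) = true
      · exact ⟨N, by omega, Nat.eq_of_beq_eq_true h1⟩
      · rw [Bool.not_eq_true] at h1
        have h2 : @Bool.rec (fun _ => Bool) (@Nat.rec (fun _ => Bool) false (fun v ih =>
            @Bool.rec (fun _ => Bool) ih true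
            (Nat.beq (Nat.land C (nthG 0 fvL v)) (nthG 0 fvL v))) N) true
            (Nat.beq (Nat.land C (nthG 0 fvL N)) (nthG 0 fvL N)) = true := h
        rw [h1] at h2
        obtain ⟨v, hv, h3⟩ := ih h2
        exact ⟨v, by omega, h3⟩
  exact key 6 h

theorem fvL_bit : ∀ v < 6, ∀ r < 15, (nthG 0 fvL v).testBit r = !(decide (v ∈ (Q6 r).image Fin.val)) := by
  decide +kernel

/-- The colour of the vertices of a quadruple, if the first `b` vertices have the second colour. -/
def nb (b r : ℕ) : ℕ := ((Q6 r).filter fun z : Fin 6 => (z : ℕ) < b).card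

theorem mmL_bit : ∀ b < 7, ∀ r < 15, (nthG 0 mmL b).testBit r = decide (nb b r = 0 ∨ nb b r = 4) := by
  decide +kernel

theorem omL_bit : ∀ b < 7, ∀ r < 15, (nthG 0 omL b).testBit r = decide (nb b r = 1 ∨ nb b r = 3) := by
  decide +kernel

theorem Q6_surj : ∀ T : Finset (Fin 6), T.card = 4 → ∃ r < 15, Q6 r = T := by decide +kernel

theorem Q6_inj : ∀ r < 15, ∀ r' < 15, Q6 r = Q6 r' → r = r' := by decide +kernel

theorem pow_Q6 : (univ : Finset (Fin 6)).powersetCard 4 = (range 15).image Q6 := by
  ext T
  rw [Finset.mem_powersetCard, Finset.mem_image]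
  constructor
  · rintro ⟨_, hT⟩
    obtain ⟨r, hr, h⟩ := Q6_surj T hT
    exact ⟨r, Finset.mem_range.mpr hr, h⟩
  · rintro ⟨r, hr, rfl⟩
    exact ⟨Finset.subset_univ _, Q6_card r (Finset.mem_range.mp hr)⟩

theorem sum_pow {M : Type*} [AddCommMonoid M] (f : Finset (Fin 6) → M) :
    ∑ T ∈ (univ : Finset (Fin 6)).powersetCard 4, f T = ∑ r ∈ range 15, f (Q6 r) := by
  rw [pow_Q6, Finset.sum_image]
  intro r hr r' hr' h
  exact Q6_inj r (Finset.mem_range.mp hr) r' (Finset.mem_range.mp hr') h

section stat
variable {n : ℕ} (H : Finset (Finset (Fin n))) (χ : Fin n → Bool)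

/-- The number of the edges of a window. -/
def kT {m : ℕ} (t : Fin m → Fin n) : ℕ :=
  ∑ T ∈ (univ : Finset (Fin m)).powersetCard 4, (zb H t T).toNat

/-- The number of the pairs of vertices of a window with colours two and one. -/
def abT {m : ℕ} (t : Fin m → Fin n) : ℕ :=
  ∑ i : Fin m, ∑ j : Fin m, (χ (t i) && !χ (t j)).toNat

/-- The monochromatic edges. -/
def monoF : Finset (Finset (Fin n)) := H.filter fun e => ∀ x ∈ e, ∀ y ∈ e, χ x = χ y

/-- The sets on which the 4-graph is as in Giraud's construction. -/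
def GSet (S : Finset (Fin n)) : Prop :=
  (∀ e ∈ S.powersetCard 4,
    ((e.filter fun x => χ x = true).card = 0 ∨ (e.filter fun x => χ x = true).card = 4 → e ∉ H) ∧
    ((e.filter fun x => χ x = true).card = 1 ∨ (e.filter fun x => χ x = true).card = 3 → e ∈ H)) ∧
  ∀ F ∈ S.powersetCard 5, Even ((F.powersetCard 4).filter fun e => e ∈ H).card

theorem zb_true_iff {m : ℕ} (t : Fin m → Fin n) (T : Finset (Fin m)) :
    zb H t T = true ↔ T.image t ∈ H := by
  unfold zb E
  rw [Bool.not_eq_true', decide_eq_false_iff_not, not_not]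

theorem kT_perm {m : ℕ} (t : Fin m → Fin n) (σ : Equiv.Perm (Fin m)) : kT H (t ∘ σ) = kT H t := by
  unfold kT
  refine Finset.sum_bij (fun T _ => T.image σ) ?_ ?_ ?_ ?_
  · intro T hT
    rw [Finset.mem_powersetCard] at hT ⊢
    exact ⟨Finset.subset_univ _, by rw [Finset.card_image_of_injective _ σ.injective, hT.2]⟩
  · intro T _ T' _ h
    exact Finset.image_injective σ.injective h
  · intro T hT
    rw [Finset.mem_powersetCard] at hT
    refine ⟨T.image σ.symm, ?_, ?_⟩
    · rw [Finset.mem_powersetCard]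
      exact ⟨Finset.subset_univ _, by rw [Finset.card_image_of_injective _ σ.symm.injective, hT.2]⟩
    · have e : (σ : Fin m → Fin m) ∘ σ.symm = id := by
        funext x
        exact σ.apply_symm_apply x
      rw [Finset.image_image, e, Finset.image_id]
  · intro T _
    rw [zb_comp]

theorem abT_perm {m : ℕ} (t : Fin m → Fin n) (σ : Equiv.Perm (Fin m)) : abT χ (t ∘ σ) = abT χ t := by
  unfold abT
  rw [← Equiv.sum_comp σ (fun i => ∑ j : Fin m, (χ (t i) && !χ (t j)).toNat)]
  refine Finset.sum_congr rfl fun i _ => ?_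
  rw [← Equiv.sum_comp σ (fun j => (χ (t (σ i)) && !χ (t j)).toNat)]
  rfl

theorem image_comp_perm {m : ℕ} (t : Fin m → Fin n) (σ : Equiv.Perm (Fin m)) :
    univ.image (t ∘ σ) = univ.image t := by
  rw [← Finset.image_image, Finset.image_univ_equiv]

/-! ### A window with the code of a representative -/

section base
variable (t : Fin 6 → Fin n) (ht : Function.Injective t) (b C : ℕ) (hb : b < 7)
  (hx : xc χ t = 2 ^ b - 1) (hj : jc H t = C)

include hj in
theorem base_hq (r : ℕ) (hr : r < 15) : hq H t r = C.testBit r := by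
  rw [← hj]
  unfold jc
  rw [testBit_idx]
  simp [hr]

include hx in
theorem base_col (v : Fin 6) : χ (t v) = decide ((v : ℕ) < b) := xc_col χ t b hx v

include hj in
theorem base_C_lt : C < 32768 := by
  rw [← hj]
  exact idx_lt 15 _

include hx hj in
theorem base_wb (r : ℕ) (hr : r < 21) :
    (C + 32768 * (2 ^ b - 1)).testBit r = wb H χ t r := by
  have hC := base_C_lt H t C hj
  have e1 : C + 32768 * (2 ^ b - 1) = 2 ^ 15 * (2 ^ b - 1) + C := by ring
  rw [e1]
  by_cases h : r < 15
  · rw [Nat.testBit_two_pow_mul_add _ hC, if_pos h]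
    unfold wb
    rw [if_pos h, base_hq H t C hj r h]
  · rw [Nat.testBit_two_pow_mul_add _ hC, if_neg h]
    unfold wb
    rw [if_neg h, ← hx]
    unfold xc
    rw [testBit_idx]
    have h2 : r - 15 < 6 := by omega
    simp [h2]

include hj in
theorem base_kT : kT H t = popG C := by
  unfold kT
  rw [sum_pow, popG_eq]
  refine Finset.sum_congr rfl fun r hr => ?_
  rw [← base_hq H t C hj r (Finset.mem_range.mp hr)]
  rfl

include ht hx in
theorem base_nb (r : ℕ) : (((Q6 r).image t).filter fun x => χ x = true).card = nb b r := by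
  rw [Finset.filter_image, Finset.card_image_of_injective _ ht]
  unfold nb
  congr 1
  apply Finset.filter_congr
  intro z _
  rw [base_col χ t b hx z, decide_eq_true_eq]

theorem mono_iff (e : Finset (Fin n)) (he : e.card = 4) :
    (∀ x ∈ e, ∀ y ∈ e, χ x = χ y) ↔
      (e.filter fun x => χ x = true).card = 0 ∨ (e.filter fun x => χ x = true).card = 4 := by
  constructor
  · intro h
    by_cases h1 : ∃ x ∈ e, χ x = true
    · right
      obtain ⟨x, hx, hx1⟩ := h1
      rw [Finset.filter_true_of_mem fun y hy => by rw [h y hy x hx, hx1], he]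
    · left
      rw [Finset.card_eq_zero, Finset.filter_eq_empty_iff]
      intro y hy hy1
      exact h1 ⟨y, hy, hy1⟩
  · rintro (h | h)
    · rw [Finset.card_eq_zero, Finset.filter_eq_empty_iff] at h
      intro x hx y hy
      have h1 := h hx
      have h2 := h hy
      rw [Bool.not_eq_true] at h1 h2
      rw [h1, h2]
    · have h1 : (e.filter fun x => χ x = true) = e :=
        Finset.eq_of_subset_of_card_le (Finset.filter_subset _ _) (by rw [h, he])
      intro x hx y hy
      rw [← h1, Finset.mem_filter] at hx hy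
      rw [hx.2, hy.2]

include ht hb hx hj in
theorem base_mono : kT (monoF H χ) t = popG (C &&& nthG 0 mmL b) := by
  unfold kT
  rw [sum_pow, popG_eq]
  refine Finset.sum_congr rfl fun r hr => ?_
  have hr' := Finset.mem_range.mp hr
  congr 1
  rw [Nat.testBit_and, ← base_hq H t C hj r hr', mmL_bit b hb r hr']
  have hc : ((Q6 r).image t).card = 4 := by
    rw [Finset.card_image_of_injective _ ht, Q6_card r hr']
  have h1 := mono_iff χ _ hc
  rw [base_nb χ t ht b hx r] at h1
  rw [Bool.eq_iff_iff, Bool.and_eq_true, decide_eq_true_eq, ← h1, zb_true_iff]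
  unfold hq monoF
  rw [zb_true_iff, Finset.mem_filter]

theorem ab_count : ∀ b < 7, ∑ i : Fin 6, ∑ j : Fin 6,
    (decide ((i : ℕ) < b) && !decide ((j : ℕ) < b)).toNat = b * (6 - b) := by decide +kernel

include hb hx in
theorem base_ab : abT χ t = b * (6 - b) := by
  rw [← ab_count b hb]
  unfold abT
  refine Finset.sum_congr rfl fun i _ => Finset.sum_congr rfl fun j _ => ?_
  rw [base_col χ t b hx i, base_col χ t b hx j]

theorem five_erase : ∀ F : Finset (Fin 6), F.card = 5 → ∃ v : Fin 6, F = univ.erase v := by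
  decide +kernel

theorem erase_mem : ∀ v : Fin 6, ∀ r < 15, v ∉ Q6 r ↔ Q6 r ∈ (univ.erase v).powersetCard 4 := by
  decide +kernel

/-- The sets of five vertices of the window. -/
theorem exists_five (F : Finset (Fin n)) (hF : F ∈ (univ.image t).powersetCard 5)
    (ht : Function.Injective t) : ∃ v : Fin 6, F = (univ.erase v).image t := by
  rw [Finset.mem_powersetCard] at hF
  obtain ⟨G, hG1, hG2⟩ := Finset.subset_image_iff.mp hF.1
  have hGc : G.card = 5 := by
    rw [← hF.2, ← hG2, Finset.card_image_of_injective _ ht]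
  obtain ⟨v, hv⟩ := five_erase G hGc
  exact ⟨v, by rw [← hG2, hv]⟩

theorem powersetCard_image {m : ℕ} (t : Fin m → Fin n) (ht : Function.Injective t)
    (G : Finset (Fin m)) (k : ℕ) :
    (G.image t).powersetCard k = (G.powersetCard k).image fun T => T.image t := by
  ext e
  rw [Finset.mem_powersetCard, Finset.mem_image]
  constructor
  · rintro ⟨h1, h2⟩
    obtain ⟨T, hT1, hT2⟩ := Finset.subset_image_iff.mp h1
    refine ⟨T, ?_, hT2⟩
    rw [Finset.mem_powersetCard]
    refine ⟨hT1, ?_⟩
    rw [← h2, ← hT2, Finset.card_image_of_injective _ ht]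
  · rintro ⟨T, hT, rfl⟩
    rw [Finset.mem_powersetCard] at hT
    exact ⟨Finset.image_subset_image hT.1, by rw [Finset.card_image_of_injective _ ht, hT.2]⟩

include ht hj in
theorem five_count (v : Fin 6) :
    ((((univ.erase v).image t).powersetCard 4).filter fun e => e ∈ H).card =
      popG (C &&& nthG 0 fvL v) := by
  rw [powersetCard_image t ht, Finset.filter_image,
    Finset.card_image_of_injective _ (Finset.image_injective ht), Finset.card_filter, popG_eq]
  have h1 : (univ.erase v).powersetCard 4 = ((range 15).filter fun r => v ∉ Q6 r).image Q6 := by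
    ext T
    rw [Finset.mem_image]
    constructor
    · intro hT
      have hc : T.card = 4 := (Finset.mem_powersetCard.mp hT).2
      obtain ⟨r, hr, rfl⟩ := Q6_surj T hc
      refine ⟨r, ?_, rfl⟩
      rw [Finset.mem_filter, Finset.mem_range]
      exact ⟨hr, (erase_mem v r hr).mpr hT⟩
    · rintro ⟨r, hr, rfl⟩
      rw [Finset.mem_filter, Finset.mem_range] at hr
      exact (erase_mem v r hr.1).mp hr.2
  rw [h1, Finset.sum_image, Finset.sum_filter]
  · refine Finset.sum_congr rfl fun r hr => ?_
    have hr' := Finset.mem_range.mp hr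
    rw [Nat.testBit_and, fvL_bit v v.isLt r hr', ← base_hq H t C hj r hr']
    have h2 : ((v : ℕ) ∈ (Q6 r).image Fin.val) ↔ v ∈ Q6 r := by
      rw [Finset.mem_image]
      constructor
      · rintro ⟨z, hz, hzv⟩
        rwa [← Fin.ext hzv]
      · intro h
        exact ⟨v, h, rfl⟩
    by_cases h3 : v ∈ Q6 r
    · rw [if_neg (not_not.mpr h3), decide_eq_true (h2.mpr h3)]
      simp
    · rw [if_pos h3, decide_eq_false fun h => h3 (h2.mp h)]
      unfold hq
      by_cases h4 : (Q6 r).image t ∈ H
      · rw [if_pos h4, (zb_true_iff H t _).mpr h4]; rfl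
      · have h5 : zb H t (Q6 r) = false := by
          rw [Bool.eq_false_iff]
          intro h
          exact h4 ((zb_true_iff H t _).mp h)
        rw [if_neg h4, h5]; rfl
  · intro r hr r' hr' h
    exact Q6_inj r (Finset.mem_range.mp (Finset.mem_filter.mp hr).1) r'
      (Finset.mem_range.mp (Finset.mem_filter.mp hr').1) h

theorem fv_pop : ∀ v < 6, popG (nthG 0 fvL v) = 5 := by decide +kernel

include ht hj in
theorem base_k5 (hfree : ∀ S : Finset (Fin n), S.card = 5 → ∃ e ∈ S.powersetCard 4, e ∉ H) :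
    k5G C = false := by
  rw [Bool.eq_false_iff]
  intro h
  obtain ⟨v, hv, h1⟩ := k5G_spec C h
  have h2 := five_count H t ht C hj ⟨v, hv⟩
  rw [h1, fv_pop v hv] at h2
  have hc : ((univ.erase (⟨v, hv⟩ : Fin 6)).image t).card = 5 := by
    rw [Finset.card_image_of_injective _ ht, Finset.card_erase_of_mem (Finset.mem_univ _),
      Finset.card_univ, Fintype.card_fin]
  obtain ⟨e, he, heH⟩ := hfree _ hc
  have h3 : (((univ.erase (⟨v, hv⟩ : Fin 6)).image t).powersetCard 4).card = 5 := by
    rw [Finset.card_powersetCard, hc]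
    rfl
  have h4 : ((((univ.erase (⟨v, hv⟩ : Fin 6)).image t).powersetCard 4).filter fun e => e ∈ H) =
      ((univ.erase (⟨v, hv⟩ : Fin 6)).image t).powersetCard 4 :=
    Finset.eq_of_subset_of_card_le (Finset.filter_subset _ _) (by rw [h2, h3])
  rw [← h4, Finset.mem_filter] at he
  exact heH he.2

include ht hb hx hj in
theorem base_GSet (h : gwG b C = true) : GSet H χ (univ.image t) := by
  have hm : C &&& nthG 0 mmL b = 0 := by
    by_contra hne
    have h1 : Nat.beq (Nat.land C (nthG 0 mmL b)) 0 = false := by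
      rw [Bool.eq_false_iff]
      intro h2
      exact hne (Nat.eq_of_beq_eq_true h2)
    unfold gwG at h
    rw [h1] at h
    exact Bool.noConfusion h
  have hm1 : Nat.beq (Nat.land C (nthG 0 mmL b)) 0 = true := by
    have e : Nat.land C (nthG 0 mmL b) = 0 := hm
    rw [e]; rfl
  unfold gwG at h
  rw [hm1] at h
  have ho : C &&& nthG 0 omL b = nthG 0 omL b := by
    by_contra hne
    have h1 : Nat.beq (Nat.land C (nthG 0 omL b)) (nthG 0 omL b) = false := by
      rw [Bool.eq_false_iff]
      intro h2
      exact hne (Nat.eq_of_beq_eq_true h2)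
    simp only [h1] at h
    exact Bool.noConfusion h
  have ho1 : Nat.beq (Nat.land C (nthG 0 omL b)) (nthG 0 omL b) = true := by
    have e : Nat.land C (nthG 0 omL b) = nthG 0 omL b := ho
    rw [e]; exact Nat.beq_refl _
  simp only [ho1] at h
  constructor
  · intro e he
    rw [powersetCard_image t ht, Finset.mem_image] at he
    obtain ⟨T, hT, rfl⟩ := he
    obtain ⟨r, hr, rfl⟩ := Q6_surj T (Finset.mem_powersetCard.mp hT).2
    rw [base_nb χ t ht b hx r]
    have hq1 : (Q6 r).image t ∈ H ↔ C.testBit r = true := by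
      rw [← base_hq H t C hj r hr]
      exact (zb_true_iff H t _).symm
    constructor
    · intro h1 h2
      have h3 : (C &&& nthG 0 mmL b).testBit r = true := by
        rw [Nat.testBit_and, hq1.mp h2, mmL_bit b hb r hr, decide_eq_true h1]
        rfl
      rw [hm, Nat.zero_testBit] at h3
      exact Bool.noConfusion h3
    · intro h1
      rw [hq1]
      have h3 : (C &&& nthG 0 omL b).testBit r = true := by
        rw [ho, omL_bit b hb r hr, decide_eq_true h1]
      rw [Nat.testBit_and, Bool.and_eq_true] at h3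
      exact h3.1
  · intro F hF
    obtain ⟨v, rfl⟩ := exists_five t F hF ht
    rw [five_count H t ht C hj v]
    have h1 := allN_spec _ _ h v v.isLt
    have h2 := Nat.eq_of_beq_eq_true h1
    exact Nat.even_iff.mpr h2

end base

end stat

end Pool.Agent.Lib.MP_afdd4d_co.MC
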