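import Pool.Agent.Lib.MP_afdd4d_co.MC.Sum

/-!
# The distance to Giraud's 4-graphs
-/

namespace Pool.Agent.Lib.MP_afdd4d_co.MC

open Finset K8

section pairs
variable {n : ℕ} (H : Finset (Finset (Fin n))) (χ : Fin n → Bool)

/-- The quadruples without `a` and `b` in which the 4-graph differs from Giraud's 4-graph given by
`a` and `b`. -/
def XF (a b : Fin n) : Finset (Finset (Fin n)) :=
  (symmDiff H (Gir χ (Mab H a b))).filter fun e => a ∉ e ∧ b ∉ e

/-- The tuple of a quadruple and a pair. -/
def tup (a b : Fin n) (s : Fin 4 → Fin n) : Fin 6 → Fin n := ![s 0, s 1, s 2, s 3, a, b]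

theorem tup_image (a b : Fin n) (s : Fin 4 → Fin n) :
    univ.image (tup a b s) = insert a (insert b (univ.image s)) := by
  ext z
  rw [Finset.mem_image, Finset.mem_insert, Finset.mem_insert, Finset.mem_image]
  constructor
  · rintro ⟨i, _, rfl⟩
    fin_cases i
    · exact Or.inr (Or.inr ⟨0, Finset.mem_univ _, rfl⟩)
    · exact Or.inr (Or.inr ⟨1, Finset.mem_univ _, rfl⟩)
    · exact Or.inr (Or.inr ⟨2, Finset.mem_univ _, rfl⟩)
    · exact Or.inr (Or.inr ⟨3, Finset.mem_univ _, rfl⟩)
    · exact Or.inl rfl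
    · exact Or.inr (Or.inl rfl)
  · rintro (h | h | ⟨i, _, h⟩)
    · exact ⟨4, Finset.mem_univ _, h.symm⟩
    · exact ⟨5, Finset.mem_univ _, h.symm⟩
    · fin_cases i
      · exact ⟨0, Finset.mem_univ _, h⟩
      · exact ⟨1, Finset.mem_univ _, h⟩
      · exact ⟨2, Finset.mem_univ _, h⟩
      · exact ⟨3, Finset.mem_univ _, h⟩

theorem tup_inj (a b : Fin n) (s : Fin 4 → Fin n) (hs : Function.Injective s) (hab : a ≠ b)
    (ha : a ∉ univ.image s) (hb : b ∉ univ.image s) : Function.Injective (tup a b s) := by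
  have h1 : (univ.image (tup a b s)).card = (univ : Finset (Fin 6)).card := by
    rw [tup_image, Finset.card_insert_of_notMem, Finset.card_insert_of_notMem hb,
      Finset.card_image_of_injective _ hs, Finset.card_univ, Fintype.card_fin, Finset.card_univ,
      Fintype.card_fin]
    rw [Finset.mem_insert]
    rintro (h | h)
    · exact hab h
    · exact ha h
  have h2 := Finset.card_image_iff.mp h1
  intro i j hij
  exact h2 (Finset.mem_coe.mpr (Finset.mem_univ i)) (Finset.mem_coe.mpr (Finset.mem_univ j)) hij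

theorem tup_inj2 (a b a' b' : Fin n) (s s' : Fin 4 → Fin n) (h : tup a b s = tup a' b' s') :
    a = a' ∧ b = b' ∧ s = s' := by
  refine ⟨congrFun h 4, congrFun h 5, ?_⟩
  funext i
  fin_cases i
  · exact congrFun h 0
  · exact congrFun h 1
  · exact congrFun h 2
  · exact congrFun h 3

theorem XF_card4 (h4 : ∀ e ∈ H, e.card = 4) (a b : Fin n) : ∀ e ∈ XF H χ a b, e.card = 4 := by
  intro e he
  unfold XF at he
  rw [Finset.mem_filter, Finset.mem_symmDiff] at he
  rcases he.1 with h | h
  · exact h4 e h.1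
  · have h1 := h.1
    unfold Gir at h1
    rw [Finset.mem_filter, Finset.mem_powersetCard] at h1
    exact h1.1.2

theorem sum_XF_le (h4 : ∀ e ∈ H, e.card = 4) :
    ∑ p ∈ (univ.filter fun x => χ x = true) ×ˢ (univ.filter fun x => χ x = false),
      24 * ((XF H χ p.1 p.2).card : ℝ) ≤ NG H χ := by
  classical
  set A := (univ.filter fun x => χ x = true) with hA
  set B := (univ.filter fun x => χ x = false) with hB
  -- the triples
  set P : Finset ((Fin n × Fin n) × (Fin 4 → Fin n)) :=
    ((A ×ˢ B) ×ˢ inj (Fin n) 4).filter fun q => univ.image q.2 ∈ XF H χ q.1.1 q.1.2 with hP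
  have hPc : (P.card : ℝ) = ∑ p ∈ A ×ˢ B, 24 * ((XF H χ p.1 p.2).card : ℝ) := by
    rw [hP, Finset.card_filter]
    push_cast
    rw [Finset.sum_product]
    refine Finset.sum_congr rfl fun p _ => ?_
    exact inj_img (XF H χ p.1 p.2) (XF_card4 H χ h4 p.1 p.2)
  have hNG : NG H χ = (((inj (Fin n) 6).filter fun t => ¬ GSet H χ (univ.image t)).card : ℝ) := by
    unfold NG
    rw [Finset.card_filter]
    push_cast
    refine Finset.sum_congr rfl fun t _ => ?_
    unfold ngS
    by_cases h : GSet H χ (univ.image t)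
    · rw [if_pos h, if_neg (not_not.mpr h)]; simp
    · rw [if_neg h, if_pos h]; simp
  rw [← hPc, hNG]
  have hle : P.card ≤ ((inj (Fin n) 6).filter fun t => ¬ GSet H χ (univ.image t)).card := by
    refine Finset.card_le_card_of_injOn (fun q => tup q.1.1 q.1.2 q.2) ?_ ?_
    · rintro ⟨⟨a, b⟩, s⟩ hq
      rw [Finset.mem_coe, hP, Finset.mem_filter, Finset.mem_product, Finset.mem_product,
        mem_inj] at hq
      obtain ⟨⟨⟨ha, hb⟩, hs⟩, he⟩ := hq
      simp only at ha hb hs he
      rw [hA, Finset.mem_filter] at ha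
      rw [hB, Finset.mem_filter] at hb
      unfold XF at he
      rw [Finset.mem_filter] at he
      obtain ⟨he1, hae, hbe⟩ := he
      have hab : a ≠ b := by
        rintro rfl
        rw [ha.2] at hb
        exact Bool.noConfusion hb.2
      rw [Finset.mem_coe, Finset.mem_filter, mem_inj]
      refine ⟨tup_inj a b s hs hab hae hbe, ?_⟩
      intro hS
      rw [tup_image] at hS
      have hc : (univ.image s).card = 4 := by
        rw [Finset.card_image_of_injective _ hs, Finset.card_univ, Fintype.card_fin]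
      have h5 := gir_of_GSet H χ a b (univ.image s) hc hae hbe ha.2 hb.2 hS
      rw [Finset.mem_symmDiff] at he1
      rcases he1 with h | h
      · exact h.2 (h5.mp h.1)
      · exact h.2 (h5.mpr h.1)
    · rintro ⟨⟨a, b⟩, s⟩ _ ⟨⟨a', b'⟩, s'⟩ _ h
      obtain ⟨h1, h2, h3⟩ := tup_inj2 a b a' b' s s' h
      rw [h1, h2, h3]
  exact_mod_cast hle

theorem contain_le (a : Fin n) (F : Finset (Finset (Fin n))) (hF : ∀ e ∈ F, e.card = 4) :
    ((F.filter fun e => a ∈ e).card : ℝ) ≤ (n : ℝ) ^ 3 := by
  have h1 : (F.filter fun e => a ∈ e).card ≤ ((univ : Finset (Fin n)).powersetCard 3).card := by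
    refine Finset.card_le_card_of_injOn (fun e => e.erase a) ?_ ?_
    · intro e he
      rw [Finset.mem_coe, Finset.mem_filter] at he
      rw [Finset.mem_coe, Finset.mem_powersetCard]
      exact ⟨Finset.subset_univ _, by rw [Finset.card_erase_of_mem he.2, hF e he.1]⟩
    · intro e he e' he' h
      rw [Finset.mem_coe, Finset.mem_filter] at he he'
      simp only at h
      rw [← Finset.insert_erase he.2, h, Finset.insert_erase he'.2]
  rw [Finset.card_powersetCard, Finset.card_univ, Fintype.card_fin] at h1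
  have h2 : n.choose 3 ≤ n ^ 3 := Nat.choose_le_pow n 3
  have h3 : (F.filter fun e => a ∈ e).card ≤ n ^ 3 := le_trans h1 h2
  exact_mod_cast h3

theorem exists_pair (h4 : ∀ e ∈ H, e.card = 4)
    (hA : 0 < (univ.filter fun x => χ x = true).card)
    (hB : 0 < (univ.filter fun x => χ x = false).card) :
    ∃ M : Fin n → Fin n → Bool, 24 * (((univ.filter fun x => χ x = true).card : ℝ) *
      ((univ.filter fun x => χ x = false).card : ℝ)) *
      (((symmDiff H (Gir χ M)).card : ℝ) - 2 * (n : ℝ) ^ 3) ≤ NG H χ := by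
  have h1 := sum_XF_le H χ h4
  set A := (univ.filter fun x => χ x = true) with hAd
  set B := (univ.filter fun x => χ x = false) with hBd
  have hA0 : (0 : ℝ) < A.card := by exact_mod_cast hA
  have hB0 : (0 : ℝ) < B.card := by exact_mod_cast hB
  have h2 : ∑ p ∈ A ×ˢ B, 24 * ((XF H χ p.1 p.2).card : ℝ) ≤
      ∑ _p ∈ A ×ˢ B, NG H χ / ((A.card : ℝ) * B.card) := by
    rw [Finset.sum_const, Finset.card_product, nsmul_eq_mul]
    push_cast
    rw [mul_div_cancel₀ _ (ne_of_gt (mul_pos hA0 hB0))]
    exact h1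
  have hne : (A ×ˢ B).Nonempty :=
    Finset.Nonempty.product (Finset.card_pos.mp hA) (Finset.card_pos.mp hB)
  obtain ⟨⟨a, b⟩, _, h3⟩ := Finset.exists_le_of_sum_le hne h2
  refine ⟨Mab H a b, ?_⟩
  simp only at h3
  rw [le_div_iff₀ (mul_pos hA0 hB0)] at h3
  have hS4 : ∀ e ∈ symmDiff H (Gir χ (Mab H a b)), e.card = 4 := by
    intro e he
    rw [Finset.mem_symmDiff] at he
    rcases he with h | h
    · exact h4 e h.1
    · have h1 := h.1
      unfold Gir at h1
      rw [Finset.mem_filter, Finset.mem_powersetCard] at h1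
      exact h1.1.2
  have h5 : (symmDiff H (Gir χ (Mab H a b))).card ≤ (XF H χ a b).card +
      (((symmDiff H (Gir χ (Mab H a b))).filter fun e => a ∈ e).card +
      ((symmDiff H (Gir χ (Mab H a b))).filter fun e => b ∈ e).card) := by
    have h6 : symmDiff H (Gir χ (Mab H a b)) ⊆ XF H χ a b ∪
        (((symmDiff H (Gir χ (Mab H a b))).filter fun e => a ∈ e) ∪
        ((symmDiff H (Gir χ (Mab H a b))).filter fun e => b ∈ e)) := by
      intro e he
      rw [Finset.mem_union, Finset.mem_union]
      unfold XF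
      rw [Finset.mem_filter, Finset.mem_filter, Finset.mem_filter]
      by_cases h7 : a ∈ e
      · exact Or.inr (Or.inl ⟨he, h7⟩)
      · by_cases h8 : b ∈ e
        · exact Or.inr (Or.inr ⟨he, h8⟩)
        · exact Or.inl ⟨he, h7, h8⟩
    refine le_trans (Finset.card_le_card h6) ?_
    refine le_trans (Finset.card_union_le _ _) ?_
    exact Nat.add_le_add_left (Finset.card_union_le _ _) _
  have h6 := contain_le a _ hS4
  have h7 := contain_le b _ hS4
  have h8 : ((symmDiff H (Gir χ (Mab H a b))).card : ℝ) ≤ ((XF H χ a b).card : ℝ) +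
      ((((symmDiff H (Gir χ (Mab H a b))).filter fun e => a ∈ e).card : ℝ) +
      (((symmDiff H (Gir χ (Mab H a b))).filter fun e => b ∈ e).card : ℝ)) := by exact_mod_cast h5
  have h9 : ((symmDiff H (Gir χ (Mab H a b))).card : ℝ) - 2 * (n : ℝ) ^ 3 ≤
      ((XF H χ a b).card : ℝ) := by linarith
  calc 24 * ((A.card : ℝ) * B.card) *
      (((symmDiff H (Gir χ (Mab H a b))).card : ℝ) - 2 * (n : ℝ) ^ 3) ≤
      24 * ((A.card : ℝ) * B.card) * ((XF H χ a b).card : ℝ) :=
        mul_le_mul_of_nonneg_left h9 (by positivity)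
    _ = 24 * ((XF H χ a b).card : ℝ) * ((A.card : ℝ) * B.card) := by ring
    _ ≤ NG H χ := h3

theorem NG_nonneg : 0 ≤ NG H χ := by
  unfold NG
  exact Finset.sum_nonneg fun t _ => Nat.cast_nonneg _

end pairs

end Pool.Agent.Lib.MP_afdd4d_co.MC
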