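import Pool.Agent.Lib.MP_afdd4d_co.MC.Loc
import Pool.Agent.Lib.MP_afdd4d_co.MC.Gir
import Pool.Agent.Lib.MP_afdd4d_co.K8.PsiSkel

/-!
# Sums over all windows
-/

namespace Pool.Agent.Lib.MP_afdd4d_co.MC

open Finset K8

section ext
variable {V : Type*} [Fintype V] [DecidableEq V]

theorem inj_ext1 (m : ℕ) (K : (Fin m → V) → ℝ) :
    ∑ t ∈ inj V (m + 1), K (t ∘ Fin.castSucc) = ((Fintype.card V : ℝ) - m) * ∑ p ∈ inj V m, K p := by
  have h := sum_inj_ins (V := V) (Fin.last m) (fun _ p => K p)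
  have e : ∀ t : Fin (m + 1) → V, t ∘ (Fin.last m).succAbove = t ∘ Fin.castSucc := by
    intro t
    rw [Fin.succAbove_last]
  simp only [e] at h
  rw [h, Finset.mul_sum]
  refine Finset.sum_congr rfl fun p hp => ?_
  rw [Finset.sum_const, nsmul_eq_mul, Finset.card_compl,
    Finset.card_image_of_injective _ (mem_inj.mp hp), Finset.card_univ, Fintype.card_fin]
  have hm : m ≤ Fintype.card V := by
    have h1 := Fintype.card_le_of_injective p (mem_inj.mp hp)
    rwa [Fintype.card_fin] at h1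
  rw [Nat.cast_sub hm]

theorem inj_ext2 (m : ℕ) (K : (Fin m → V) → ℝ) :
    ∑ t ∈ inj V (m + 2), K (t ∘ Fin.castAdd 2) =
      ((Fintype.card V : ℝ) - m - 1) * (((Fintype.card V : ℝ) - m) * ∑ p ∈ inj V m, K p) := by
  have h1 := inj_ext1 (V := V) (m + 1) fun t => K (t ∘ Fin.castSucc)
  rw [inj_ext1] at h1
  have e : ∀ t : Fin (m + 2) → V, K ((t ∘ Fin.castSucc) ∘ Fin.castSucc) = K (t ∘ Fin.castAdd 2) :=
    fun t => rfl
  rw [← Finset.sum_congr rfl fun t _ => e t]
  refine h1.trans ?_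
  push_cast
  ring

theorem inj_ext4 (m : ℕ) (K : (Fin m → V) → ℝ) :
    ∑ t ∈ inj V (m + 4), K (t ∘ Fin.castAdd 4) =
      ((Fintype.card V : ℝ) - m - 3) * ((Fintype.card V : ℝ) - m - 2) *
      (((Fintype.card V : ℝ) - m - 1) * (((Fintype.card V : ℝ) - m) * ∑ p ∈ inj V m, K p)) := by
  have h1 := inj_ext2 (V := V) (m + 2) fun t => K (t ∘ Fin.castAdd 2)
  rw [inj_ext2] at h1
  have e : ∀ t : Fin (m + 4) → V, K ((t ∘ Fin.castAdd 2) ∘ Fin.castAdd 2) =
    K (t ∘ Fin.castAdd 4) := fun t => rfl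
  rw [← Finset.sum_congr rfl fun t _ => e t]
  refine h1.trans ?_
  push_cast
  ring

theorem inj_two (A B : Finset V) (hAB : Disjoint A B) :
    ∑ p ∈ inj V 2, (if p 0 ∈ A ∧ p 1 ∈ B then (1 : ℝ) else 0) = (A.card : ℝ) * B.card := by
  rw [← Finset.sum_filter, Finset.sum_const, nsmul_eq_mul, mul_one]
  have h : ((inj V 2).filter fun p => p 0 ∈ A ∧ p 1 ∈ B).card = (A ×ˢ B).card := by
    refine Finset.card_bij (fun p _ => (p 0, p 1)) ?_ ?_ ?_
    · intro p hp
      rw [Finset.mem_filter] at hp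
      exact Finset.mem_product.mpr hp.2
    · intro p _ p' _ h
      funext i
      fin_cases i
      · exact (Prod.mk.injEq _ _ _ _ ▸ h).1
      · exact (Prod.mk.injEq _ _ _ _ ▸ h).2
    · rintro ⟨a, b⟩ hab
      rw [Finset.mem_product] at hab
      refine ⟨![a, b], ?_, rfl⟩
      rw [Finset.mem_filter, mem_inj]
      refine ⟨?_, hab⟩
      have hne : a ≠ b := fun h => Finset.disjoint_left.mp hAB hab.1 (h ▸ hab.2)
      intro i j hij
      fin_cases i <;> fin_cases j
      · rfl
      · exact absurd hij hne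
      · exact absurd hij.symm hne
      · rfl
  rw [h, Finset.card_product]
  push_cast
  rfl

end ext

section sums
variable {n : ℕ} (H : Finset (Finset (Fin n))) (χ : Fin n → Bool)

theorem inj_img (h4 : ∀ e ∈ H, e.card = 4) :
    ∑ s ∈ inj (Fin n) 4, (if univ.image s ∈ H then (1 : ℝ) else 0) = 24 * (H.card : ℝ) := by
  have h := sum_img (V := Fin n) fun Q => if Q ∈ H then (1 : ℝ) else 0
  rw [← Finset.sum_filter] at h
  have e : (univ : Finset (Fin 4 → Fin n)).filter (fun b => Function.Injective b) = inj (Fin n) 4 := by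
    ext b
    rw [mem_inj, Finset.mem_filter]
    simp
  rw [e] at h
  rw [h, ← Finset.sum_filter, Finset.sum_const, nsmul_eq_mul, mul_one]
  congr 3
  ext Q
  rw [Finset.mem_filter, Finset.mem_powersetCard]
  constructor
  · exact fun h => h.2
  · exact fun h => ⟨⟨Finset.subset_univ _, h4 Q h⟩, h⟩

theorem sum_kT (h4 : ∀ e ∈ H, e.card = 4) : ∑ t ∈ inj (Fin n) 6, (kT H t : ℝ) =
    360 * (((n : ℝ) - 5) * ((n : ℝ) - 4) * (H.card : ℝ)) := by
  have h1 : ∀ t : Fin (4 + 2) → Fin n, (kT H t : ℝ) =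
      ∑ T ∈ (univ : Finset (Fin (4 + 2))).powersetCard 4, (((zb H t T).toNat : ℕ) : ℝ) := by
    intro t
    unfold kT
    push_cast
    rfl
  have h0 : ∑ t ∈ inj (Fin n) 6, (kT H t : ℝ) = ∑ t ∈ inj (Fin n) (4 + 2), (kT H t : ℝ) := rfl
  rw [h0]
  simp_rw [h1]
  rw [Finset.sum_comm]
  have h2 : ∀ T ∈ (univ : Finset (Fin (4 + 2))).powersetCard 4,
      ∑ t ∈ inj (Fin n) (4 + 2), (((zb H t T).toNat : ℕ) : ℝ) =
      24 * (((n : ℝ) - 5) * ((n : ℝ) - 4) * (H.card : ℝ)) := by
    intro T hT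
    obtain ⟨j, hj, hjT⟩ := exists_inj_of_card T (Finset.mem_powersetCard.mp hT).2
    have h3 : ∀ t : Fin (4 + 2) → Fin n, (((zb H t T).toNat : ℕ) : ℝ) =
        (fun s : Fin 4 → Fin n => if univ.image s ∈ H then (1 : ℝ) else 0) (t ∘ j) := by
      intro t
      simp only
      rw [← hjT]
      have e : (univ.image j).image t = univ.image (t ∘ j) := Finset.image_image
      by_cases h : univ.image (t ∘ j) ∈ H
      · rw [if_pos h, (zb_true_iff H t _).mpr (by rw [e]; exact h)]; simp
      · have h5 : zb H t (univ.image j) = false := by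
          rw [Bool.eq_false_iff]
          intro h6
          apply h
          rw [← e]
          exact (zb_true_iff H t _).mp h6
        rw [if_neg h, h5]; simp
    rw [Finset.sum_congr rfl fun t _ => h3 t]
    refine (sum_inj_comp (V := Fin n) 2 (fun s : Fin 4 → Fin n =>
      if univ.image s ∈ H then (1 : ℝ) else 0) j hj).trans ?_
    refine (inj_ext2 (V := Fin n) 4 (fun s : Fin 4 → Fin n =>
      if univ.image s ∈ H then (1 : ℝ) else 0)).trans ?_
    rw [Fintype.card_fin, inj_img H h4]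
    push_cast
    ring
  rw [Finset.sum_congr rfl h2, Finset.sum_const, Finset.card_powersetCard, Finset.card_univ,
    Fintype.card_fin, nsmul_eq_mul]
  norm_num [Nat.choose]
  ring

theorem sum_abT : ∑ t ∈ inj (Fin n) 6, (abT χ t : ℝ) =
    30 * (((n : ℝ) - 5) * ((n : ℝ) - 4) * (((n : ℝ) - 3) * ((n : ℝ) - 2)) *
      (((univ.filter fun x => χ x = true).card : ℝ) * ((univ.filter fun x => χ x = false).card : ℝ))) := by
  have h1 : ∀ t : Fin (2 + 4) → Fin n, (abT χ t : ℝ) =
      ∑ i : Fin (2 + 4), ∑ j : Fin (2 + 4), (((χ (t i) && !χ (t j)).toNat : ℕ) : ℝ) := by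
    intro t
    unfold abT
    push_cast
    rfl
  have h0 : ∑ t ∈ inj (Fin n) 6, (abT χ t : ℝ) = ∑ t ∈ inj (Fin n) (2 + 4), (abT χ t : ℝ) := rfl
  rw [h0]
  simp_rw [h1]
  rw [Finset.sum_comm]
  have h2 : ∀ i j : Fin (2 + 4),
      ∑ t ∈ inj (Fin n) (2 + 4), (((χ (t i) && !χ (t j)).toNat : ℕ) : ℝ) =
      if i = j then 0 else (((n : ℝ) - 5) * ((n : ℝ) - 4) * (((n : ℝ) - 3) * ((n : ℝ) - 2)) *
      (((univ.filter fun x => χ x = true).card : ℝ) *
        ((univ.filter fun x => χ x = false).card : ℝ))) := by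
    intro i j
    by_cases hij : i = j
    · rw [if_pos hij, hij]
      refine Finset.sum_eq_zero fun t _ => ?_
      cases χ (t j) <;> simp
    · rw [if_neg hij]
      have hinj : Function.Injective (![i, j] : Fin 2 → Fin (2 + 4)) := by
        intro a b hab
        fin_cases a <;> fin_cases b
        · rfl
        · exact absurd hab hij
        · exact absurd hab.symm hij
        · rfl
      have h3 : ∀ t : Fin (2 + 4) → Fin n, (((χ (t i) && !χ (t j)).toNat : ℕ) : ℝ) =
          (fun p : Fin 2 → Fin n => if p 0 ∈ (univ.filter fun x => χ x = true) ∧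
            p 1 ∈ (univ.filter fun x => χ x = false) then (1 : ℝ) else 0)
            (t ∘ (![i, j] : Fin 2 → Fin (2 + 4))) := by
        intro t
        simp only [Function.comp_apply, Matrix.cons_val_zero, Matrix.cons_val_one,
          Finset.mem_filter, Finset.mem_univ, true_and]
        cases χ (t i) <;> cases χ (t j) <;> simp
      rw [Finset.sum_congr rfl fun t _ => h3 t]
      refine (sum_inj_comp (V := Fin n) 4 (fun p : Fin 2 → Fin n =>
        if p 0 ∈ (univ.filter fun x => χ x = true) ∧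
            p 1 ∈ (univ.filter fun x => χ x = false) then (1 : ℝ) else 0) _ hinj).trans ?_
      refine (inj_ext4 (V := Fin n) 2 (fun p : Fin 2 → Fin n =>
        if p 0 ∈ (univ.filter fun x => χ x = true) ∧
            p 1 ∈ (univ.filter fun x => χ x = false) then (1 : ℝ) else 0)).trans ?_
      rw [Fintype.card_fin, inj_two]
      · push_cast
        ring
      · rw [Finset.disjoint_left]
        intro x hx hx'
        rw [Finset.mem_filter] at hx hx'
        rw [hx.2] at hx'
        exact Bool.noConfusion hx'.2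
  have h4 : ∀ i : Fin (2 + 4), ∑ t ∈ inj (Fin n) (2 + 4), ∑ j : Fin (2 + 4),
      (((χ (t i) && !χ (t j)).toNat : ℕ) : ℝ) = ∑ j : Fin (2 + 4), if i = j then 0 else
      (((n : ℝ) - 5) * ((n : ℝ) - 4) * (((n : ℝ) - 3) * ((n : ℝ) - 2)) *
      (((univ.filter fun x => χ x = true).card : ℝ) *
        ((univ.filter fun x => χ x = false).card : ℝ))) := by
    intro i
    rw [Finset.sum_comm]
    exact Finset.sum_congr rfl fun j _ => h2 i j
  rw [Finset.sum_congr rfl fun i _ => h4 i]
  generalize (((n : ℝ) - 5) * ((n : ℝ) - 4) * (((n : ℝ) - 3) * ((n : ℝ) - 2)) *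
      (((univ.filter fun x => χ x = true).card : ℝ) *
        ((univ.filter fun x => χ x = false).card : ℝ))) = c
  have h5 : ∀ i : Fin (2 + 4), (∑ j : Fin (2 + 4), if i = j then (0 : ℝ) else c) = 5 * c := by
    intro i
    have h6 : ∀ j : Fin (2 + 4), (if i = j then (0 : ℝ) else c) = c - if i = j then c else 0 := by
      intro j
      split_ifs <;> ring
    rw [Finset.sum_congr rfl fun j _ => h6 j, Finset.sum_sub_distrib, Finset.sum_const,
      Finset.card_univ, Fintype.card_fin, Finset.sum_ite_eq, if_pos (Finset.mem_univ i),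
      nsmul_eq_mul]
    norm_num
    ring
  rw [Finset.sum_congr rfl fun i _ => h5 i, Finset.sum_const, Finset.card_univ, Fintype.card_fin,
    nsmul_eq_mul]
  norm_num
  ring

/-- The number of the windows that are not as in Giraud's construction. -/
noncomputable def NG : ℝ := ∑ t ∈ inj (Fin n) 6, (ngS H χ (univ.image t) : ℝ)

/-- The inequality for the whole 4-graph. -/
theorem globalA (D : List (List ℕ)) (hD : OK D) (hrow : ∀ k < 160, chA D k = true)
    (h4 : ∀ e ∈ H, e.card = 4)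
    (hfree : ∀ S : Finset (Fin n), S.card = 5 → ∃ e ∈ S.powersetCard 4, e ∉ H) :
    -(30 * 65536 * ((n : ℝ) ^ 6 - (n.descFactorial 6 : ℝ))) +
      30720 * (360 * (((n : ℝ) - 5) * ((n : ℝ) - 4) * (H.card : ℝ))) + 1056 * NG H χ ≤
    270720 * (n.descFactorial 6 : ℝ) +
      21504 * (360 * (((n : ℝ) - 5) * ((n : ℝ) - 4) * ((monoF H χ).card : ℝ))) +
      6144 * (30 * (((n : ℝ) - 5) * ((n : ℝ) - 4) * (((n : ℝ) - 3) * ((n : ℝ) - 2)) *
      (((univ.filter fun x => χ x = true).card : ℝ) *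
        ((univ.filter fun x => χ x = false).card : ℝ)))) := by
  have h1 := PS_sum_ge D H χ hD
  have h2 : ∑ t ∈ inj (Fin n) 6, (((PS (k := 4) (kp D H χ) t : ℤ) : ℝ) + 30720 * (kT H t : ℝ) +
      1056 * (ngS H χ (univ.image t) : ℝ)) ≤ ∑ t ∈ inj (Fin n) 6,
      (270720 + 21504 * (kT (monoF H χ) t : ℝ) + 6144 * (abT χ t : ℝ)) := by
    refine Finset.sum_le_sum fun t ht => ?_
    have h3 := locA D H χ hD hrow hfree t (mem_inj.mp ht)
    unfold LocA at h3
    exact_mod_cast h3
  rw [Finset.sum_add_distrib, Finset.sum_add_distrib, Finset.sum_add_distrib,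
    Finset.sum_add_distrib, ← Finset.mul_sum, ← Finset.mul_sum, ← Finset.mul_sum,
    ← Finset.mul_sum, sum_kT H h4, sum_kT (monoF H χ) fun e he => h4 e (Finset.mem_filter.mp he).1,
    sum_abT, Finset.sum_const, card_inj, Fintype.card_fin, nsmul_eq_mul] at h2
  unfold NG
  linarith

end sums

end Pool.Agent.Lib.MP_afdd4d_co.MC
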