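import Pool.Agent.Lib.MP_afdd4d_co.MC.Ker

/-!
# The sum of the kernels over a window

The 21 bits of a window are the bits of the fifteen quadruples and the colours of the six vertices. The
sum of the kernels over a window is computed from the code of these bits.
-/

namespace Pool.Agent.Lib.MP_afdd4d_co.MC

open Finset K8

/-! ### Positions -/

/-- The number of the vertex `y` of the others after `x`. -/
def suc (x y : ℕ) : ℕ := @Bool.rec (fun _ => ℕ) (Nat.succ y) y (Nat.blt y x)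

/-- The root number `i` for the pair `x`, `y`. -/
def rtG (x y i : ℕ) : ℕ := suc x (suc y i)

/-- The bit mask of the quadruple of the roots, with the root number `i` replaced by `v`. -/
def mskG (x y i v : ℕ) : ℕ := @Nat.rec (fun _ => ℕ) 0 (fun j ih => Nat.add ih
  (Nat.pow 2 (@Bool.rec (fun _ => ℕ) (rtG x y j) v (Nat.beq j i)))) 4

/-- The number of the quadruple with a given bit mask. -/
def qnL : List ℕ := [15, 15, 15, 15, 15, 15, 15, 15, 15, 15, 15, 15, 15, 15, 15, 0, 15, 15, 15, 15, 15, 15, 15,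
  1, 15, 15, 15, 2, 15, 3, 4, 15, 15, 15, 15, 15, 15, 15, 15, 5, 15, 15, 15, 6, 15, 7, 8, 15, 15, 15, 15,
  9, 15, 10, 11, 15, 15, 12, 13, 15, 14, 15, 15, 15]

/-- The number of the quadruple of the roots, with the root number `i` replaced by `v`. -/
def qnG (x y i v : ℕ) : ℕ := nthG 15 qnL (mskG x y i v)

/-- The positions of the bits of the type. -/
def pT (x y : ℕ) : List ℕ := [15 + rtG x y 0, 15 + rtG x y 1, 15 + rtG x y 2, 15 + rtG x y 3,
  qnG x y 4 0]

/-- The positions of the bits of the code of the vertex `v`. -/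
def pC (x y v : ℕ) : List ℕ := [qnG x y 0 v, qnG x y 1 v, qnG x y 2 v, qnG x y 3 v, 15 + v]

section win
variable {n : ℕ} (H : Finset (Finset (Fin n))) (χ : Fin n → Bool)

/-- The bits of a window. -/
def wb (t : Fin 6 → Fin n) (r : ℕ) : Bool := if r < 15 then hq H t r else χ (t (Fin.ofNat 6 (r - 15)))

theorem geo1 : ∀ x : Fin 6, ∀ y : Fin 5, ∀ i : Fin 4, (x.succAbove (y.succAbove i) : ℕ) = rtG x y i ∧
    rtG x y i < 6 := by decide +kernel

theorem geo2 : ∀ x : Fin 6, ∀ y : Fin 5, qnG x y 4 0 < 15 ∧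
    univ.image (x.succAbove ∘ y.succAbove) = Q6 (qnG x y 4 0) := by decide +kernel

theorem geo3 : ∀ x : Fin 6, ∀ y : Fin 5, ∀ i : Fin 4, (qnG x y i x < 15 ∧
    univ.image (Function.update (x.succAbove ∘ y.succAbove) i x) = Q6 (qnG x y i x)) ∧
    (qnG x y i (x.succAbove y) < 15 ∧
    univ.image (Function.update (x.succAbove ∘ y.succAbove) i (x.succAbove y)) =
      Q6 (qnG x y i (x.succAbove y))) := by decide +kernel

theorem bt_five (F G : ℕ → Bool) (a b c d e : ℕ) (h0 : F 0 = G a) (h1 : F 1 = G b) (h2 : F 2 = G c)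
    (h3 : F 3 = G d) (h4 : F 4 = G e) : bt F r5 = bt G [a, b, c, d, e] := by
  unfold r5
  rw [bt, bt, bt, bt, bt, bt, bt, bt, bt, bt, bt, bt, h0, h1, h2, h3, h4]

theorem wb_col (t : Fin 6 → Fin n) (v : Fin 6) : wb H χ t (15 + v) = χ (t v) := by
  unfold wb
  rw [if_neg (by omega), Nat.add_sub_cancel_left]
  congr 2
  apply Fin.ext
  rw [Fin.val_ofNat, Nat.mod_eq_of_lt v.isLt]

theorem wb_quad (t : Fin 6 → Fin n) (r : ℕ) (hr : r < 15) : wb H χ t r = zb H t (Q6 r) := by
  unfold wb hq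
  rw [if_pos hr]

theorem ty_win (t : Fin 6 → Fin n) (x : Fin 6) (y : Fin 5) :
    bt (tyb H χ (t ∘ x.succAbove ∘ y.succAbove)) r5 = bt (wb H χ t) (pT x y) := by
  have hc : ∀ i : Fin 4, tyb H χ (t ∘ x.succAbove ∘ y.succAbove) i =
      wb H χ t (15 + rtG x y i) := by
    intro i
    rw [← (geo1 x y i).1, wb_col]
    unfold tyb
    rw [if_pos i.isLt]
    simp only [Function.comp_apply]
    congr 4
    apply Fin.ext
    rw [Fin.val_ofNat, Nat.mod_eq_of_lt i.isLt]
  refine bt_five _ _ _ _ _ _ _ (hc 0) (hc 1) (hc 2) (hc 3) ?_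
  obtain ⟨h1, h2⟩ := geo2 x y
  rw [wb_quad _ _ _ _ h1, ← h2, ← zb_comp]
  rfl

theorem cd_win (t : Fin 6 → Fin n) (x : Fin 6) (y : Fin 5) (v : Fin 6)
    (hv : ∀ i : Fin 4, qnG x y i v < 15 ∧
      univ.image (Function.update (x.succAbove ∘ y.succAbove) i v) = Q6 (qnG x y i v)) :
    bt (cdb H χ (t ∘ x.succAbove ∘ y.succAbove) (t v)) r5 = bt (wb H χ t) (pC x y v) := by
  have hc : ∀ i : Fin 4, cdb H χ (t ∘ x.succAbove ∘ y.succAbove) (t v) i =
      wb H χ t (qnG x y i v) := by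
    intro i
    rw [wb_quad _ _ _ _ (hv i).1, ← (hv i).2, ← zb_comp]
    unfold cdb
    rw [if_pos i.isLt]
    have e : Function.update (t ∘ x.succAbove ∘ y.succAbove) (Fin.ofNat 4 i) (t v) =
        t ∘ Function.update (x.succAbove ∘ y.succAbove) i v := by
      have e2 : Fin.ofNat 4 i = i := by
        apply Fin.ext
        rw [Fin.val_ofNat, Nat.mod_eq_of_lt i.isLt]
      rw [e2, Function.comp_update]
    rw [e]
  refine bt_five _ _ _ _ _ _ _ (hc 0) (hc 1) (hc 2) (hc 3) ?_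
  rw [wb_col]
  rfl

end win

/-! ### The sum over the pairs -/

/-- A sum. -/
def snG (A : ℕ → ℕ) (N : ℕ) : ℕ := @Nat.rec (fun _ => ℕ) 0 (fun k ih => Nat.add ih (A k)) N

theorem snG_eq (A : ℕ → ℕ) (N : ℕ) : snG A N = ∑ k ∈ range N, A k := by
  induction N with
  | zero => rfl
  | succ N ih =>
    rw [Finset.sum_range_succ, ← ih]
    rfl

/-- The term of a pair. -/
def evT (D : List (List ℕ)) (C x y : ℕ) : ℕ :=
  kvN D (btG C (pT x y)) (btG C (pC x y x)) (btG C (pC x y (suc x y)))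

/-- The sum over all pairs. -/
def evN (D : List (List ℕ)) (C : ℕ) : ℕ := snG (fun x => snG (fun y => evT D C x y) 5) 6

theorem suc_eq : ∀ x : Fin 6, ∀ y : Fin 5, (x.succAbove y : ℕ) = suc x y := by decide +kernel

theorem bt_testBit (F : ℕ → Bool) (C N : ℕ) (h : ∀ r < N, C.testBit r = F r) (l : List ℕ)
    (hl : ∀ r ∈ l, r < N) : bt F l = btG C l := by
  rw [btG_eq]
  exact bt_congr _ _ _ fun r hr => (h r (hl r hr)).symm

theorem pT_lt : ∀ x : Fin 6, ∀ y : Fin 5, ∀ r ∈ pT x y, r < 21 := by decide +kernel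

theorem pC_lt : ∀ x : Fin 6, ∀ y : Fin 5, ∀ r ∈ pC x y x ++ pC x y (suc x y), r < 21 := by
  decide +kernel

theorem PS_evN {n : ℕ} (D : List (List ℕ)) (H : Finset (Finset (Fin n))) (χ : Fin n → Bool)
    (t : Fin 6 → Fin n) (C : ℕ) (hC : ∀ r < 21, C.testBit r = wb H χ t r) :
    PS (k := 4) (kp D H χ) t = (evN D C : ℤ) - 30 * 65536 := by
  have hterm : ∀ (x : Fin (4 + 1 + 1)) (y : Fin (4 + 1)),
      kp D H χ (t ∘ x.succAbove ∘ y.succAbove) (t x) (t (x.succAbove y)) =
      (evT D C x y : ℤ) - 65536 := by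
    intro x y
    unfold kp evT
    rw [kv_eq, ty_win H χ t x y, cd_win H χ t x y x fun i => (geo3 x y i).1,
      cd_win H χ t x y (x.succAbove y) fun i => (geo3 x y i).2, suc_eq x y,
      bt_testBit (wb H χ t) C 21 hC (pT x y) (pT_lt x y),
      bt_testBit (wb H χ t) C 21 hC (pC x y x) fun r hr =>
        pC_lt x y r (List.mem_append_left _ hr),
      bt_testBit (wb H χ t) C 21 hC (pC x y (suc x y)) fun r hr =>
        pC_lt x y r (List.mem_append_right _ hr)]
  unfold PS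
  rw [Finset.sum_congr rfl fun x _ => Finset.sum_congr rfl fun y _ => hterm x y]
  have e1 : (evN D C : ℤ) = ∑ x : Fin (4 + 1 + 1), ∑ y : Fin (4 + 1), (evT D C x y : ℤ) := by
    unfold evN
    rw [snG_eq, Finset.sum_range]
    push_cast
    refine Finset.sum_congr rfl fun x _ => ?_
    rw [snG_eq, Finset.sum_range]
    push_cast
    rfl
  rw [e1]
  simp only [Finset.sum_sub_distrib, Finset.sum_const, Finset.card_univ, Fintype.card_fin]
  norm_num

end Pool.Agent.Lib.MP_afdd4d_co.MC
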